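import Pool.Agent.Lib.MP_904b2a_gt.ExtMod
import Mathlib

/-!
# MP_904b2a_gt, module BALL-PACK: spheres are obtained from a point by attaching one cell
-/

open scoped BigOperators RealInnerProductSpace
open Metric Set

namespace Pool.Agent.Lib.MP_904b2a_gt.H44

noncomputable section

section

variable {E : Type} [NormedAddCommGroup E] [InnerProductSpace ℝ E] {k : ℕ} {v : E}

/-- The characteristic map of the cell. -/
def cn (L : (Fin k → ℝ) ≃L[ℝ] (ℝ ∙ v)ᗮ) (x : Fin k → ℝ) : E :=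
  (‖L x‖ ^ 2 + 4 * (1 - ‖x‖) ^ 2)⁻¹ •
    ((4 * (1 - ‖x‖)) • ((L x : (ℝ ∙ v)ᗮ) : E) + (‖L x‖ ^ 2 - 4 * (1 - ‖x‖) ^ 2) • v)

theorem den_pos (L : (Fin k → ℝ) ≃L[ℝ] (ℝ ∙ v)ᗮ) (x : Fin k → ℝ) :
    0 < ‖L x‖ ^ 2 + 4 * (1 - ‖x‖) ^ 2 := by
  by_cases h : x = 0
  · subst h
    simp
  · have h1 : 0 < ‖L x‖ := norm_pos_iff.mpr (fun h2 => h (by simpa using h2))
    positivity

theorem continuous_cn (L : (Fin k → ℝ) ≃L[ℝ] (ℝ ∙ v)ᗮ) : Continuous (cn L) := by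
  unfold cn
  have h1 : Continuous (fun x : Fin k → ℝ => L x) := L.continuous
  have h2 : Continuous (fun x : Fin k → ℝ => ‖L x‖ ^ 2 + 4 * (1 - ‖x‖) ^ 2) := by fun_prop
  refine Continuous.smul (h2.inv₀ (fun x => (den_pos L x).ne')) ?_
  have h3 : Continuous (fun x : Fin k → ℝ => ((L x : (ℝ ∙ v)ᗮ) : E)) :=
    continuous_subtype_val.comp h1
  fun_prop

theorem cn_of_lt (hv : ‖v‖ = 1) (L : (Fin k → ℝ) ≃L[ℝ] (ℝ ∙ v)ᗮ) {x : Fin k → ℝ}
    (hx : ‖x‖ < 1) : cn L x = (stereoInvFun hv (L ((1 - ‖x‖)⁻¹ • x)) : E) := by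
  have hs : 0 < 1 - ‖x‖ := by linarith
  have h1 : L ((1 - ‖x‖)⁻¹ • x) = (1 - ‖x‖)⁻¹ • L x := map_smul _ _ _
  have hd := (den_pos L x).ne'
  rw [stereoInvFun_apply, h1, norm_smul, norm_inv, Real.norm_of_nonneg hs.le, cn,
    Submodule.coe_smul]
  generalize ‖L x‖ = a at *
  generalize 1 - ‖x‖ = s at *
  have e1 : ((s⁻¹ * a) ^ 2 + 4)⁻¹ = (a ^ 2 + 4 * s ^ 2)⁻¹ * s ^ 2 := by
    have h5 : (s⁻¹ * a) ^ 2 + 4 = (a ^ 2 + 4 * s ^ 2) / s ^ 2 := by
      field_simp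
    rw [h5, inv_div]
    field_simp
  rw [e1, mul_smul (a ^ 2 + 4 * s ^ 2)⁻¹ (s ^ 2)]
  congr 1
  rw [smul_add, smul_smul, smul_smul, smul_smul]
  congr 1
  · congr 1
    field_simp
  · congr 1
    field_simp

theorem cn_of_eq (L : (Fin k → ℝ) ≃L[ℝ] (ℝ ∙ v)ᗮ) {x : Fin k → ℝ} (hx : ‖x‖ = 1) :
    cn L x = v := by
  have hd := (den_pos L x).ne'
  rw [cn]
  rw [hx] at hd ⊢
  simp only [sub_self, mul_zero, zero_smul, zero_add, ne_eq, OfNat.ofNat_ne_zero,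
    not_false_eq_true, zero_pow, add_zero, sub_zero] at hd ⊢
  rw [smul_smul, inv_mul_cancel₀ hd, one_smul]

/-- The unit sphere of a real inner product space of dimension `k + 1` is obtained from any of its
points by attaching one cell of dimension `k`. -/
theorem nonempty_cellAttach [FiniteDimensional ℝ E] (hE : Module.finrank ℝ E = k + 1)
    (s₀ : sphere (0 : E) 1) : Nonempty (CellAttach k (sphere (0 : E) 1) {s₀} Unit) := by
  have hv : ‖(s₀ : E)‖ = 1 := by simp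
  have hv0 : (s₀ : E) ≠ 0 := by
    intro h
    rw [h, norm_zero] at hv
    exact zero_ne_one hv
  have : Fact (Module.finrank ℝ E = k + 1) := ⟨hE⟩
  have h1 : Module.finrank ℝ (ℝ ∙ (s₀ : E))ᗮ = k :=
    Submodule.finrank_orthogonal_span_singleton hv0
  let L : (Fin k → ℝ) ≃L[ℝ] (ℝ ∙ (s₀ : E))ᗮ :=
    ContinuousLinearEquiv.ofFinrankEq (by rw [h1, Module.finrank_fin_fun])
  have hlt : ∀ x : CB k, ‖x.1‖ < 1 ∨ ‖x.1‖ = 1 := fun x =>
    lt_or_eq_of_le (mem_closedBall_zero_iff.mp x.2)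
  have hmem : ∀ x : CB k, cn L x.1 ∈ sphere (0 : E) 1 := by
    intro x
    rcases hlt x with h | h
    · rw [cn_of_lt hv L h]
      exact (stereoInvFun hv _).2
    · rw [cn_of_eq L h]
      exact s₀.2
  let χ : C(CB k, sphere (0 : E) 1) :=
    ⟨fun x => ⟨cn L x.1, hmem x⟩, ((continuous_cn L).comp continuous_subtype_val).subtype_mk _⟩
  have hχ : ∀ x : CB k, ‖x.1‖ < 1 → χ x = stereoInvFun hv (L ((1 - ‖x.1‖)⁻¹ • x.1)) :=
    fun x hx => Subtype.ext (cn_of_lt hv L hx)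
  have hχ1 : ∀ x : CB k, ‖x.1‖ = 1 → χ x = s₀ := fun x hx => Subtype.ext (cn_of_eq L hx)
  have hne : ∀ x : CB k, ‖x.1‖ < 1 → χ x ≠ s₀ := by
    intro x hx h
    rw [hχ x hx] at h
    exact stereoInvFun_ne_north_pole hv _ h
  refine ⟨{ χ := fun _ => χ, isClosed := isClosed_singleton, bdry := ?_, int := ?_, inj := ?_,
            cover := ?_, closed_of := ?_ }⟩
  · intro _ x hx
    exact hχ1 x hx
  · intro _ x hx
    exact hne x hx
  · intro _ _ x x' hx hx' h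
    refine ⟨rfl, ?_⟩
    rw [hχ x hx, hχ x' hx'] at h
    have h2 : L ((1 - ‖x.1‖)⁻¹ • x.1) = L ((1 - ‖x'.1‖)⁻¹ • x'.1) := by
      rw [← stereo_right_inv hv (L ((1 - ‖x.1‖)⁻¹ • x.1)), h, stereo_right_inv]
    have h3 := L.injective h2
    have hs : 0 < 1 - ‖x.1‖ := by linarith
    have hs' : 0 < 1 - ‖x'.1‖ := by linarith
    have h4 : (1 - ‖x.1‖)⁻¹ * ‖x.1‖ = (1 - ‖x'.1‖)⁻¹ * ‖x'.1‖ := by
      have := congrArg norm h3
      rwa [norm_smul, norm_smul, norm_inv, norm_inv, Real.norm_of_nonneg hs.le,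
        Real.norm_of_nonneg hs'.le] at this
    have h5 : ‖x.1‖ = ‖x'.1‖ := by
      field_simp at h4
      linarith
    rw [h5] at h3
    exact Subtype.ext (smul_right_injective _ (inv_ne_zero hs'.ne') h3)
  · intro z
    by_cases hz : z = s₀
    · exact Or.inl hz
    · right
      have hz' : (z : E) ≠ (s₀ : E) := fun h => hz (Subtype.ext h)
      set y : Fin k → ℝ := L.symm (stereoToFun (s₀ : E) z) with hy
      have hp : 0 < 1 + ‖y‖ := by positivity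
      have hn : ‖(1 + ‖y‖)⁻¹ • y‖ = (1 + ‖y‖)⁻¹ * ‖y‖ := by
        rw [norm_smul, norm_inv, Real.norm_of_nonneg hp.le]
      have hn1 : ‖(1 + ‖y‖)⁻¹ • y‖ < 1 := by
        rw [hn, inv_mul_lt_iff₀ hp]
        linarith
      refine ⟨(), ⟨(1 + ‖y‖)⁻¹ • y, by simpa using hn1.le⟩, hn1, ?_⟩
      rw [hχ _ hn1]
      have h6 : (1 - ‖(1 + ‖y‖)⁻¹ • y‖)⁻¹ • ((1 + ‖y‖)⁻¹ • y) = y := by
        rw [hn, smul_smul]
        have h7 : (1 - (1 + ‖y‖)⁻¹ * ‖y‖)⁻¹ * (1 + ‖y‖)⁻¹ = 1 := by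
          rw [← mul_inv, sub_mul, one_mul, mul_comm (1 + ‖y‖)⁻¹ ‖y‖, mul_assoc,
            inv_mul_cancel₀ hp.ne']
          norm_num
        rw [h7, one_smul]
      change stereoInvFun hv (L ((1 - ‖(1 + ‖y‖)⁻¹ • y‖)⁻¹ • ((1 + ‖y‖)⁻¹ • y))) = z
      rw [h6, hy, ContinuousLinearEquiv.apply_symm_apply]
      exact stereo_left_inv hv hz'
  · intro A hA hA'
    have h8 : A = (A ∩ {s₀}) ∪ χ '' (χ ⁻¹' A) := by
      ext z
      constructor
      · intro hz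
        by_cases hz0 : z = s₀
        · exact Or.inl ⟨hz, hz0⟩
        · right
          have hz' : (z : E) ≠ (s₀ : E) := fun h => hz0 (Subtype.ext h)
          set y : Fin k → ℝ := L.symm (stereoToFun (s₀ : E) z) with hy
          have hp : 0 < 1 + ‖y‖ := by positivity
          have hn : ‖(1 + ‖y‖)⁻¹ • y‖ = (1 + ‖y‖)⁻¹ * ‖y‖ := by
            rw [norm_smul, norm_inv, Real.norm_of_nonneg hp.le]
          have hn1 : ‖(1 + ‖y‖)⁻¹ • y‖ < 1 := by
            rw [hn, inv_mul_lt_iff₀ hp]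
            linarith
          have h6 : (1 - ‖(1 + ‖y‖)⁻¹ • y‖)⁻¹ • ((1 + ‖y‖)⁻¹ • y) = y := by
            rw [hn, smul_smul]
            have h7 : (1 - (1 + ‖y‖)⁻¹ * ‖y‖)⁻¹ * (1 + ‖y‖)⁻¹ = 1 := by
              rw [← mul_inv, sub_mul, one_mul, mul_comm (1 + ‖y‖)⁻¹ ‖y‖, mul_assoc,
                inv_mul_cancel₀ hp.ne']
              norm_num
            rw [h7, one_smul]
          have h9 : χ ⟨(1 + ‖y‖)⁻¹ • y, by simpa using hn1.le⟩ = z := by
            rw [hχ _ hn1]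
            change stereoInvFun hv (L ((1 - ‖(1 + ‖y‖)⁻¹ • y‖)⁻¹ • ((1 + ‖y‖)⁻¹ • y))) = z
            rw [h6, hy, ContinuousLinearEquiv.apply_symm_apply]
            exact stereo_left_inv hv hz'
          exact ⟨_, by
            change χ _ ∈ A
            rw [h9]
            exact hz, h9⟩
      · rintro (⟨hz, -⟩ | ⟨x, hx, rfl⟩)
        · exact hz
        · exact hx
    rw [h8]
    refine hA.union ?_
    exact ((hA' ()).isCompact.image χ.continuous).isClosed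

end

/-- The spheres `S^k`. -/
theorem sphereCellStatement : SphereCellStatement := fun _ s₀ =>
  nonempty_cellAttach (by simp) s₀

/-- The unit spheres of `ℂ^i`. -/
theorem sphCellStatement : SphCellStatement := by
  intro i hi s₀
  obtain ⟨j, rfl⟩ : ∃ j, i = j + 1 := ⟨i - 1, by omega⟩
  have h : 2 * (j + 1) - 1 = 2 * j + 1 := by omega
  rw [h]
  refine nonempty_cellAttach (E := EuclideanSpace ℂ (Fin (j + 1))) ?_ s₀
  rw [finrank_real_of_complex, finrank_euclideanSpace_fin]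
  ring

end

end Pool.Agent.Lib.MP_904b2a_gt.H44
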