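import Pool.Agent.Lib.MP_904b2a_gt.H83.Punct
import Pool.Agent.Lib.MP_904b2a_gt.Interfaces2
import Pool.Agent.Lib.MP_904b2a_gt.H1.SphA

/-!
# MP_904b2a_gt, module KUN: the cohomology of `Y × S^n`
-/

open scoped BigOperators RealInnerProductSpace
open Metric Set

namespace Pool.Agent.Lib.MP_904b2a_gt.H44

open H83 (T PtLike Split2 MVSq MVT pr1 pr2 idX)
open H1 (norm_sph sph_inner_self eq_or_eq_neg_of_smul wv wv_smul wv_ne norm_normalize
  isOpen_compl_pt ne_neg_self eqtIncl eqt eqt_ne eqt_ne_neg)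

noncomputable section

theorem ptLike_of_subsingleton {U : Type} [TopologicalSpace U] [Subsingleton U] (u₀ : U) :
    PtLike U := by
  refine PtLike.of_homotopic u₀ ?_
  have : ContinuousMap.const U u₀ = ContinuousMap.id U :=
    ContinuousMap.ext (fun x => Subsingleton.elim _ _)
  rw [this]

theorem ptLike_of_contractible {U : Type} [TopologicalSpace U] [ContractibleSpace U] :
    PtLike U := by
  obtain ⟨u₀, hu⟩ := (contractible_iff_id_nullhomotopic U).mp inferInstance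
  exact PtLike.of_homotopic u₀ hu.symm

section

variable {E : Type} [NormedAddCommGroup E] [InnerProductSpace ℝ E]

/-- The complement of a point of the sphere is contractible. -/
theorem contractible_compl (v : sphere (0 : E) 1) :
    ContractibleSpace ({v}ᶜ : Set (sphere (0 : E) 1)) := by
  set φ := stereographic (norm_sph v) with hφ
  have hs : φ.source = {v}ᶜ := stereographic_source (norm_sph v)
  have ht : φ.target = Set.univ := stereographic_target (norm_sph v)
  have e1 : φ.source ≃ₜ φ.target := φ.toHomeomorphSourceTarget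
  rw [← hs]
  have e2 : φ.target ≃ₜ (ℝ ∙ (v : E))ᗮ :=
    (Homeomorph.setCongr ht).trans (Homeomorph.Set.univ _)
  exact (e1.trans e2).contractibleSpace

theorem exists_unit (h : 0 < Module.finrank ℝ E) : Nonempty (sphere (0 : E) 1) := by
  have : Nontrivial E := Module.nontrivial_of_finrank_pos (R := ℝ) h
  obtain ⟨w, hw⟩ := exists_ne (0 : E)
  exact ⟨⟨‖w‖⁻¹ • w, norm_normalize hw⟩⟩

/-- The zero-sphere. -/
theorem exists_split_zero [FiniteDimensional ℝ E] (hE : Module.finrank ℝ E = 1) :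
    ∃ ι : H 0 (sphere (0 : E) 1) ℤ, Split2 (sphere (0 : E) 1) (T.of 0 ι) := by
  obtain ⟨v⟩ := exists_unit (E := E) (by omega)
  have hv0 : (v : E) ≠ 0 := by
    intro h
    have := norm_sph v
    rw [h, norm_zero] at this
    exact zero_ne_one this
  have htwo : ∀ x : sphere (0 : E) 1, x = v ∨ x = -v := by
    intro x
    obtain ⟨c, hc⟩ := (finrank_eq_one_iff_of_nonzero' (v : E) hv0).mp hE (x : E)
    exact eq_or_eq_neg_of_smul hc.symm
  have hfin : Finite (sphere (0 : E) 1) := by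
    have : (Set.univ : Set (sphere (0 : E) 1)) ⊆ {v, -v} := fun x _ => htwo x
    exact Set.finite_univ_iff.mp ((Set.toFinite _).subset this)
  set A : Set (sphere (0 : E) 1) := {v} with hA
  set B : Set (sphere (0 : E) 1) := {-v} with hB
  have hAo : IsOpen A := isOpen_discrete _
  have hBo : IsOpen B := isOpen_discrete _
  have hdis : A ∩ B ⊆ ∅ := by
    rintro x ⟨h1, h2⟩
    exact ne_neg_self v ((show x = v from h1).symm.trans h2)
  have S : MVSq (H83.incl (empty_subset A)) (H83.incl (empty_subset B)) (H83.sval A)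
      (H83.sval B) := MVSq.univ hAo hBo (empty_subset A) (empty_subset B) htwo hdis
  have hPA : PtLike A := ptLike_of_subsingleton ⟨v, rfl⟩
  have hPB : PtLike B := ptLike_of_subsingleton ⟨-v, rfl⟩
  obtain ⟨k, hk1, hk2⟩ := H83.MV.exact_UW S (n := 0) (u := (H.one : H 0 A ℤ)) (w := (0 : H 0 B ℤ))
    (by
      have h : ∀ a b : H 0 (∅ : Set (sphere (0 : E) 1)) ℤ, a = b := by
        intro a b
        have ha := congrFun (H83.T.eq_zero_of_isEmpty (T.of 0 a)) 0
        have hb := congrFun (H83.T.eq_zero_of_isEmpty (T.of 0 b)) 0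
        rw [H83.T.of_self] at ha hb
        rw [ha, hb]
      exact h _ _)
  refine ⟨k, Split2.two S hPA hPB ?_ ?_⟩
  · rw [H83.T.map_of, hk1]
    rfl
  · rw [H83.T.map_of, hk2, map_zero]

/-- The vector `wv v 1 x` as a vector of the hyperplane. -/
theorem wv_mem (v x : sphere (0 : E) 1) : wv v 1 x ∈ (ℝ ∙ (v : E))ᗮ := by
  rw [Submodule.mem_orthogonal_singleton_iff_inner_right, wv, one_mul, inner_sub_right,
    inner_smul_right, sph_inner_self, mul_one, sub_self]

/-- The retraction of the complement of the poles to the equator. -/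
def eqR (v : sphere (0 : E) 1) :
    C(({-v}ᶜ ∩ {v}ᶜ : Set (sphere (0 : E) 1)), sphere (0 : (ℝ ∙ (v : E))ᗮ) 1) where
  toFun x := ⟨‖(⟨wv v 1 x.1, wv_mem v x.1⟩ : (ℝ ∙ (v : E))ᗮ)‖⁻¹ •
    (⟨wv v 1 x.1, wv_mem v x.1⟩ : (ℝ ∙ (v : E))ᗮ), norm_normalize (fun h =>
      wv_ne (t := 1) x.2.2 x.2.1 (congrArg Subtype.val h))⟩
  continuous_toFun := by
    refine Continuous.subtype_mk ?_ _
    have h1 : Continuous (fun x : ({-v}ᶜ ∩ {v}ᶜ : Set (sphere (0 : E) 1)) =>
        (⟨wv v 1 x.1, wv_mem v x.1⟩ : (ℝ ∙ (v : E))ᗮ)) := by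
      refine Continuous.subtype_mk ?_ _
      unfold wv
      fun_prop
    exact (h1.norm.inv₀ (fun x h => wv_ne (t := 1) x.2.2 x.2.1
      (congrArg Subtype.val (norm_eq_zero.mp h)))).smul h1

theorem eqI_mem (v : sphere (0 : E) 1) (y : sphere (0 : (ℝ ∙ (v : E))ᗮ) 1) :
    eqtIncl v y ∈ ({-v}ᶜ ∩ {v}ᶜ : Set (sphere (0 : E) 1)) := by
  have h : eqtIncl v y ∈ eqt v :=
    Submodule.mem_orthogonal_singleton_iff_inner_right.mp (y : (ℝ ∙ (v : E))ᗮ).2
  exact ⟨eqt_ne_neg h, eqt_ne h⟩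

/-- The inclusion of the equator into the complement of the poles. -/
def eqI (v : sphere (0 : E) 1) :
    C(sphere (0 : (ℝ ∙ (v : E))ᗮ) 1, ({-v}ᶜ ∩ {v}ᶜ : Set (sphere (0 : E) 1))) where
  toFun y := ⟨eqtIncl v y, eqI_mem v y⟩
  continuous_toFun := (H1.isEmbedding_eqtIncl v).continuous.subtype_mk _

theorem eqR_eqI (v : sphere (0 : E) 1) : (eqR v).comp (eqI v) = ContinuousMap.id _ := by
  refine ContinuousMap.ext (fun y => ?_)
  have hy : ⟪(v : E), ((y : (ℝ ∙ (v : E))ᗮ) : E)⟫ = 0 :=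
    Submodule.mem_orthogonal_singleton_iff_inner_right.mp (y : (ℝ ∙ (v : E))ᗮ).2
  have h1 : wv v 1 (eqI v y).1 = ((y : (ℝ ∙ (v : E))ᗮ) : E) := by
    change ((y : (ℝ ∙ (v : E))ᗮ) : E) - (1 * ⟪(v : E), ((y : (ℝ ∙ (v : E))ᗮ) : E)⟫) • (v : E) = _
    rw [hy, mul_zero, zero_smul, sub_zero]
  have h2 : (⟨wv v 1 (eqI v y).1, wv_mem v (eqI v y).1⟩ : (ℝ ∙ (v : E))ᗮ) = y.1 :=
    Subtype.ext h1
  apply Subtype.ext
  change ‖(⟨wv v 1 (eqI v y).1, wv_mem v (eqI v y).1⟩ : (ℝ ∙ (v : E))ᗮ)‖⁻¹ •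
    (⟨wv v 1 (eqI v y).1, wv_mem v (eqI v y).1⟩ : (ℝ ∙ (v : E))ᗮ) = y.1
  rw [h2, norm_sph y, inv_one, one_smul]

theorem eqI_eqR (v : sphere (0 : E) 1) :
    ((eqI v).comp (eqR v)).Homotopic (ContinuousMap.id _) := by
  have hne : ∀ (t : ℝ) (x : ({-v}ᶜ ∩ {v}ᶜ : Set (sphere (0 : E) 1))), wv v t x.1 ≠ 0 :=
    fun t x => wv_ne x.2.2 x.2.1
  have hwc : Continuous (fun p : unitInterval × ({-v}ᶜ ∩ {v}ᶜ : Set (sphere (0 : E) 1)) =>
      wv v (p.1 : ℝ) p.2.1) := by
    unfold wv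
    fun_prop
  have hc : Continuous (fun p : unitInterval × ({-v}ᶜ ∩ {v}ᶜ : Set (sphere (0 : E) 1)) =>
      (⟨‖wv v (p.1 : ℝ) p.2.1‖⁻¹ • wv v (p.1 : ℝ) p.2.1, norm_normalize (hne _ _)⟩ :
        sphere (0 : E) 1)) := by
    refine Continuous.subtype_mk ?_ _
    exact (hwc.norm.inv₀ (fun p => norm_ne_zero_iff.mpr (hne _ _))).smul hwc
  have hmem : ∀ p : unitInterval × ({-v}ᶜ ∩ {v}ᶜ : Set (sphere (0 : E) 1)),
      (⟨‖wv v (p.1 : ℝ) p.2.1‖⁻¹ • wv v (p.1 : ℝ) p.2.1, norm_normalize (hne _ _)⟩ :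
        sphere (0 : E) 1) ∈ ({-v}ᶜ ∩ {v}ᶜ : Set (sphere (0 : E) 1)) := by
    intro p
    have key : ∀ c : ℝ, ‖wv v (p.1 : ℝ) p.2.1‖⁻¹ • wv v (p.1 : ℝ) p.2.1 = c • (v : E) →
        False := by
      intro c hc'
      have h0 : ‖wv v (p.1 : ℝ) p.2.1‖ ≠ 0 := norm_ne_zero_iff.mpr (hne _ _)
      have : wv v (p.1 : ℝ) p.2.1 = (‖wv v (p.1 : ℝ) p.2.1‖ * c) • (v : E) := by
        rw [mul_smul, ← hc', smul_smul, mul_inv_cancel₀ h0, one_smul]
      rcases wv_smul this with h' | h'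
      · exact p.2.2.2 h'
      · exact p.2.2.1 h'
    constructor
    · intro h
      refine key (-1) ((congrArg Subtype.val h).trans ?_)
      rw [neg_one_smul]
      rfl
    · intro h
      refine key 1 ((congrArg Subtype.val h).trans ?_)
      rw [one_smul]
  have hF : Continuous (fun p : unitInterval × ({-v}ᶜ ∩ {v}ᶜ : Set (sphere (0 : E) 1)) =>
      (⟨⟨‖wv v (p.1 : ℝ) p.2.1‖⁻¹ • wv v (p.1 : ℝ) p.2.1, norm_normalize (hne _ _)⟩, hmem p⟩ :
        ({-v}ᶜ ∩ {v}ᶜ : Set (sphere (0 : E) 1)))) := hc.subtype_mk _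
  refine ContinuousMap.Homotopic.symm ⟨{
    toFun := _
    continuous_toFun := hF
    map_zero_left := fun x => ?_
    map_one_left := fun x => ?_ }⟩
  · apply Subtype.ext
    apply Subtype.ext
    change ‖wv v ((0 : unitInterval) : ℝ) x.1‖⁻¹ • wv v ((0 : unitInterval) : ℝ) x.1 = x.1.1
    have h : wv v ((0 : unitInterval) : ℝ) x.1 = x.1.1 := by
      rw [Set.Icc.coe_zero, wv, zero_mul, zero_smul, sub_zero]
    rw [h, norm_sph, inv_one, one_smul]
  · apply Subtype.ext
    apply Subtype.ext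
    rfl

/-- Künneth for spheres, general form. -/
theorem exists_split_sphere : ∀ (N : ℕ) (E : Type) [NormedAddCommGroup E]
    [InnerProductSpace ℝ E] [FiniteDimensional ℝ E] (_ : Module.finrank ℝ E = N + 1),
    ∃ ι : H N (sphere (0 : E) 1) ℤ, Split2 (sphere (0 : E) 1) (T.of N ι) := by
  intro N
  induction N with
  | zero =>
    intro E _ _ _ hE
    exact exists_split_zero hE
  | succ N ih =>
    intro E _ _ _ hE
    obtain ⟨v⟩ := exists_unit (E := E) (by omega)
    have hv0 : (v : E) ≠ 0 := by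
      intro h
      have := norm_sph v
      rw [h, norm_zero] at this
      exact zero_ne_one this
    have : Fact (Module.finrank ℝ E = (N + 1) + 1) := ⟨hE⟩
    have h1 : Module.finrank ℝ (ℝ ∙ (v : E))ᗮ = N + 1 :=
      Submodule.finrank_orthogonal_span_singleton hv0
    obtain ⟨ι, hι⟩ := ih (ℝ ∙ (v : E))ᗮ h1
    have h2 := hι.of_bij (eqR v) (fun X _ => H83.idX_bij_of_homotopic (g := eqI v)
      (eqI_eqR v) (by rw [eqR_eqI]) X)
    rw [H83.T.map_of] at h2
    have S : MVSq (H83.incl (inter_subset_left (s := ({-v}ᶜ : Set (sphere (0 : E) 1)))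
        (t := {v}ᶜ))) (H83.incl inter_subset_right) (H83.sval ({-v}ᶜ : Set (sphere (0 : E) 1)))
        (H83.sval ({v}ᶜ : Set (sphere (0 : E) 1))) :=
      MVSq.univ (isOpen_compl_pt (-v)) (isOpen_compl_pt v) inter_subset_left inter_subset_right
        (fun x => by
          by_cases hx : x = v
          · left
            rw [hx]
            exact ne_neg_self v
          · right
            exact hx) subset_rfl
    obtain ⟨c, hc⟩ := H83.MV.exists S (H.pb (eqR v) ι)
    have hcU := contractible_compl (-v)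
    have hcW := contractible_compl v
    exact ⟨c, Split2.susp S ptLike_of_contractible ptLike_of_contractible h2 (MVT.of hc)⟩

end

/-! ### From total cohomology to the single degrees -/

section graded

variable {I : Type} [TopologicalSpace I] {N : ℕ} {ι : H N I ℤ} (hι : Split2 I (T.of N ι))
  {Y : Type} [TopologicalSpace Y]

theorem total_of {l : ℕ} (a : H (N + l) Y ℤ) (b : H l Y ℤ) :
    T.map (pr1 Y I) (T.of (N + l) a) +
      T.map (pr2 Y I) (T.of N ι) * T.map (pr1 Y I) (T.of l b) =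
      T.of (N + l) (H.pb (pr1 Y I) a + H.cup rfl (H.pb (pr2 Y I) ι) (H.pb (pr1 Y I) b)) := by
  rw [H83.T.map_of, H83.T.map_of, H83.T.map_of, H83.T.mul_of_of rfl, ← map_add]

theorem of_injective {X : Type} [TopologicalSpace X] (n : ℕ) :
    Function.Injective (T.of (X := X) n) := by
  intro a b h
  have := congrFun h n
  rwa [H83.T.of_self, H83.T.of_self] at this

theorem mul_comp_ge {X : Type} [TopologicalSpace X] {N l : ℕ} (κ : H N X ℤ) (b : T X) :
    (T.of N κ * b) (N + l) = H.cup rfl κ (b l) := by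
  rw [H83.T.mul_apply, Finset.sum_eq_single (N, l)]
  · rw [H83.T.of_self, H83.cup0_eq rfl]
  · rintro ⟨p, q⟩ hx hne
    rw [Finset.HasAntidiagonal.mem_antidiagonal] at hx
    simp only at hx
    have hp : p ≠ N := by
      intro hp
      apply hne
      rw [Prod.mk.injEq]
      omega
    rw [H83.T.of_ne hp, map_zero, AddMonoidHom.zero_apply]
  · intro hx
    exact absurd (Finset.HasAntidiagonal.mem_antidiagonal.2 (rfl : N + l = N + l)) hx

theorem mul_comp_lt {X : Type} [TopologicalSpace X] {N m : ℕ} (h : m < N) (κ : H N X ℤ)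
    (b : T X) : (T.of N κ * b) m = 0 := by
  rw [H83.T.mul_apply]
  apply Finset.sum_eq_zero
  rintro ⟨p, q⟩ hx
  rw [Finset.HasAntidiagonal.mem_antidiagonal] at hx
  simp only at hx
  rw [H83.T.of_ne (by omega : p ≠ N), map_zero, AddMonoidHom.zero_apply]

include hι

theorem kun_bij (l : ℕ) : Function.Bijective (fun ab : H (N + l) Y ℤ × H l Y ℤ =>
    H.pb (pr1 Y I) ab.1 + H.cup rfl (H.pb (pr2 Y I) ι) (H.pb (pr1 Y I) ab.2)) := by
  constructor
  · rintro ⟨a, b⟩ ⟨a', b'⟩ h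
    simp only at h
    have h2 := (hι Y).1 (a₁ := (T.of (N + l) a, T.of l b)) (a₂ := (T.of (N + l) a', T.of l b'))
      (by
        simp only
        rw [total_of, total_of, h])
    rw [Prod.mk.injEq] at h2
    rw [of_injective _ h2.1, of_injective _ h2.2]
  · intro y
    obtain ⟨⟨a, b⟩, hab⟩ := (hι Y).2 (T.of (N + l) y)
    simp only at hab
    refine ⟨(a (N + l), b l), ?_⟩
    have h := congrFun hab (N + l)
    rw [H83.T.of_self, H83.T.add_apply, H83.T.map_apply, H83.T.map_of, mul_comp_ge] at h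
    exact h

theorem kun_low {m : ℕ} (hm : m < N) :
    Function.Bijective (H.pb (n := m) (A := ℤ) (pr1 Y I)) := by
  constructor
  · intro a a' h
    have h2 := (hι Y).1 (a₁ := (T.of m a, 0)) (a₂ := (T.of m a', 0)) (by
      simp only [map_zero, mul_zero, add_zero]
      rw [H83.T.map_of, H83.T.map_of, h])
    rw [Prod.mk.injEq] at h2
    exact of_injective _ h2.1
  · intro y
    obtain ⟨⟨a, b⟩, hab⟩ := (hι Y).2 (T.of m y)
    simp only at hab
    refine ⟨a m, ?_⟩
    have h := congrFun hab m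
    rw [H83.T.of_self, H83.T.add_apply, H83.T.map_apply, H83.T.map_of, mul_comp_lt hm,
      add_zero] at h
    exact h

end graded

/-- **Module KUN.** -/
theorem kunnethStatement : KunnethStatement := by
  intro n hn
  obtain ⟨ι, hι⟩ := exists_split_sphere n (EuclideanSpace ℝ (Fin (n + 1))) (by simp)
  refine ⟨ι, ?_, fun Y _ => ⟨fun m hm => kun_low hι hm, fun l => kun_bij hι l⟩⟩
  intro u
  obtain ⟨⟨a, b⟩, hab⟩ := (kun_bij hι (Y := Unit) 0).2 (H.pb (pr2 Unit _) u)
  simp only at hab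
  obtain ⟨k, hk⟩ := H83.H0_of_pathConnected (X := Unit) b
  obtain ⟨n, rfl⟩ : ∃ m, n = m + 1 := ⟨n - 1, by omega⟩
  have ha : a = 0 := H.eq_zero_of_subsingleton n a
  refine ⟨k, ?_⟩
  have h := congrArg (H.pb (⟨fun x => ((), x), by fun_prop⟩ :
    C(sphere (0 : EuclideanSpace ℝ (Fin (n + 1 + 1))) 1,
      Unit × sphere (0 : EuclideanSpace ℝ (Fin (n + 1 + 1))) 1))) hab
  rw [ha, hk, map_zero, zero_add, H.pb_cup, H.pb_comp, H.pb_comp, map_zsmul, H.pb_one,
    map_zsmul, H.pb_comp] at h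
  have e1 : H.cup (rfl : n + 1 + 0 = n + 1 + 0) ι
      (H.one (X := sphere (0 : EuclideanSpace ℝ (Fin (n + 1 + 1))) 1)) = ι :=
    H83.H.cup_one rfl ι
  have e2 : H.pb (ContinuousMap.id _) u = u := H.pb_id u
  have e3 : H.pb (ContinuousMap.id _) ι = ι := H.pb_id ι
  refine e2.symm.trans (h.symm.trans ?_)
  have e4 : H.cup (rfl : n + 1 + 0 = n + 1 + 0) (H.pb (ContinuousMap.id _) ι)
      (H.one (X := sphere (0 : EuclideanSpace ℝ (Fin (n + 1 + 1))) 1)) = ι := by
    rw [e3]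
    exact e1
  exact congrArg (fun t => k • t) e4

end

end Pool.Agent.Lib.MP_904b2a_gt.H44
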