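import Pool.Agent.Lib.MP_904b2a_gt.H44.Sign
import Pool.Agent.Lib.MP_904b2a_gt.H49.SM

/-!
# MP_904b2a_gt, module ALG: the results of `SMod`, `Sign` in terms of `SM` and `PSS`
-/

open scoped BigOperators TensorProduct
open Finset

namespace Pool.Agent.Lib.MP_904b2a_gt

open H44

noncomputable section

namespace SM

/-- A simplicial abelian group as a simplicial module. -/
def toSMod (X : SM) : SMod where
  M := X.T
  inst := X.ab
  d n i := (X.d n i).toIntLinearMap
  s n i := (X.s n i).toIntLinearMap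
  d_d := X.d_d
  d_s_lt := X.d_s_lt
  d_s_eq := X.d_s_eq
  d_s_succ := X.d_s_succ
  d_s_gt := X.d_s_gt

theorem toSMod_bd (X : SM) (n : ℕ) (x : X.T (n + 1)) : X.toSMod.bd n x = X.bd n x :=
  (SMod.bd_apply X.toSMod n x).trans (X.bd_apply n x).symm

theorem toSMod_cyc (X : SM) (n : ℕ) (x : X.T n) : X.toSMod.cyc n x ↔ X.Cyc n x := by
  cases n with
  | zero => exact Iff.rfl
  | succ n => exact ⟨fun h => (toSMod_bd X n x).symm.trans h, fun h => (toSMod_bd X n x).trans h⟩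

theorem tens_bd (X Y : SM) (n : ℕ) (x : (X.tensor Y).T (n + 1)) :
    (SMod.tens X.toSMod Y.toSMod).bd n x = (X.tensor Y).bd n x :=
  (SMod.bd_apply (SMod.tens X.toSMod Y.toSMod) n x).trans ((X.tensor Y).bd_apply n x).symm

theorem tens_cyc (X Y : SM) (n : ℕ) (x : (X.tensor Y).T n) :
    (SMod.tens X.toSMod Y.toSMod).cyc n x ↔ (X.tensor Y).Cyc n x := by
  cases n with
  | zero => exact Iff.rfl
  | succ n => exact ⟨fun h => (tens_bd X Y n x).symm.trans h, fun h => (tens_bd X Y n x).trans h⟩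

theorem tens3_bd (X Y Z : SM) (n : ℕ) (x : (X.tensor (Y.tensor Z)).T (n + 1)) :
    (SMod.tens X.toSMod (SMod.tens Y.toSMod Z.toSMod)).bd n x = (X.tensor (Y.tensor Z)).bd n x :=
  (SMod.bd_apply (SMod.tens X.toSMod (SMod.tens Y.toSMod Z.toSMod)) n x).trans
    ((X.tensor (Y.tensor Z)).bd_apply n x).symm

theorem tens3_cyc (X Y Z : SM) (n : ℕ) (x : (X.tensor (Y.tensor Z)).T n) :
    (SMod.tens X.toSMod (SMod.tens Y.toSMod Z.toSMod)).cyc n x ↔
      (X.tensor (Y.tensor Z)).Cyc n x := by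
  cases n with
  | zero => exact Iff.rfl
  | succ n =>
    exact ⟨fun h => (tens3_bd X Y Z n x).symm.trans h, fun h => (tens3_bd X Y Z n x).trans h⟩

/-- A contraction (simplicial homotopy from the identity to zero) in degrees `< a`. -/
structure Hty (T : SM) (a : ℕ) where
  H : ∀ _ k : ℕ, T.T k →+ T.T (k + 1)
  h1 : ∀ k i j x, k + 1 < a → i ≤ j → j ≤ k →
    T.d (k + 1) i (H (j + 1) (k + 1) x) = H j k (T.d k i x)
  h2 : ∀ k i j x, k + 1 < a → j < i → i ≤ k + 1 →
    T.d (k + 1) (i + 1) (H j (k + 1) x) = H j k (T.d k i x)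
  h3 : ∀ k i x, k + 1 < a → i < k + 1 →
    T.d (k + 1) (i + 1) (H (i + 1) (k + 1) x) = T.d (k + 1) (i + 1) (H i (k + 1) x)
  e0 : ∀ k x, k < a → T.d k 0 (H 0 k x) = x
  e1 : ∀ k x, k < a → T.d k (k + 1) (H k k x) = 0

/-- (C): levelwise free simplicial groups without homology in degrees `< a` are contractible
in degrees `< a`. -/
theorem exists_hty (T : SM) (hf : ∀ n, Module.Free ℤ (T.T n)) (a : ℕ)
    (h : ∀ k, k < a → T.HZ k) : Nonempty (T.Hty a) := by
  obtain ⟨c⟩ := (SMod.Idem.id T.toSMod).exists_ctr hf a (fun k hk z _ hz => by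
    obtain ⟨w, hw⟩ := h k hk z ((T.toSMod_cyc k z).mp hz)
    exact ⟨w, (T.toSMod_bd k w).trans hw⟩)
  exact ⟨{
    H := fun j k => (c.H j k).toAddMonoidHom
    h1 := fun k i j x hk hij hj => c.H1 j k i hk hij hj x
    h2 := fun k i j x hk hij hi => c.H2 j k i hk hij hi x
    h3 := fun k i x hk hi => c.H3 i k hk hi x
    e0 := fun k x hk => c.h0 k hk x
    e1 := fun k x hk => c.HE k hk x }⟩

/-- (I1). -/
theorem HZ_tensor (T : SM) (hf : ∀ n, Module.Free ℤ (T.T n)) (a : ℕ)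
    (h : ∀ k, k < a → T.HZ k) (Y : SM) (k : ℕ) (hk : k < a) : (T.tensor Y).HZ k := by
  intro x hx
  obtain ⟨y, hy⟩ := (SMod.Idem.id T.toSMod).tens_ex hf a (fun k hk z _ hz => by
    obtain ⟨w, hw⟩ := h k hk z ((T.toSMod_cyc k z).mp hz)
    exact ⟨w, (T.toSMod_bd k w).trans hw⟩) Y.toSMod k hk x ((tens_cyc T Y k x).mpr hx)
  refine ⟨y, (tens_bd T Y k y).symm.trans (hy.trans ?_)⟩
  change TensorProduct.map LinearMap.id LinearMap.id x = x
  rw [TensorProduct.map_id]
  rfl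

/-- Tensor products with a simplicial group whose image under a simplicial idempotent `e` has no
homology in degrees `< a`. -/
theorem idem_tensor (T : SM) (hf : ∀ n, Module.Free ℤ (T.T n)) (e : ∀ n, T.T n →+ T.T n)
    (e_e : ∀ n x, e n (e n x) = e n x)
    (e_d : ∀ n i x, i ≤ n + 1 → e n (T.d n i x) = T.d n i (e (n + 1) x))
    (e_s : ∀ n i x, i ≤ n → e (n + 1) (T.s n i x) = T.s n i (e n x)) (a : ℕ)
    (h : ∀ k, k < a → ∀ x : T.T k, e k x = x → T.Cyc k x → ∃ y, T.bd k y = x) (Y : SM) (k : ℕ)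
    (hk : k < a) (x : (T.tensor Y).T k) (hx : (T.tensor Y).Cyc k x) :
    ∃ y, (T.tensor Y).bd k y = tmap (e k) (AddMonoidHom.id _) x := by
  let E : T.toSMod.Idem :=
    { e := fun n => (e n).toIntLinearMap
      e_e := e_e
      e_d := e_d
      e_s := e_s }
  obtain ⟨y, hy⟩ := E.tens_ex hf a (fun k hk z he hz => by
    obtain ⟨w, hw⟩ := h k hk z he ((T.toSMod_cyc k z).mp hz)
    exact ⟨w, (T.toSMod_bd k w).trans hw⟩) Y.toSMod k hk x ((tens_cyc T Y k x).mpr hx)
  exact ⟨y, (tens_bd T Y k y).symm.trans hy⟩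

/-- The swap of the first two factors. -/
def swap (T Y : SM) (n : ℕ) : (T.tensor (T.tensor Y)).T n →+ (T.tensor (T.tensor Y)).T n :=
  (TensorProduct.leftComm ℤ (T.T n) (T.T n) (Y.T n)).toLinearMap.toAddMonoidHom

@[simp] theorem swap_tmul (T Y : SM) (n : ℕ) (a b : T.T n) (c : Y.T n) :
    T.swap Y n (a ⊗ₜ[ℤ] (b ⊗ₜ[ℤ] c)) = b ⊗ₜ[ℤ] (a ⊗ₜ[ℤ] c) := rfl

/-- The sign lemma in terms of `SM`. -/
theorem sgn (T : SM) (N : ℕ) (h : T.toSMod.Sgn N) (Y : SM) (n : ℕ)
    (x : (T.tensor (T.tensor Y)).T n) (hx : (T.tensor (T.tensor Y)).Cyc n x) :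
    ∃ y, (T.tensor (T.tensor Y)).bd n y =
      T.swap Y n x - (-1 : ℤ) ^ N • x := by
  obtain ⟨y, hy⟩ := h Y.toSMod n x ((tens3_cyc T T Y n x).mpr hx)
  exact ⟨y, (tens3_bd T T Y n y).symm.trans hy⟩

end SM

namespace PSS

/-- The map of reduced chains induced by a map of simplices. -/
def cm (K K' : PSS) {n m : ℕ} (f : K.K n → K'.K m) : (K.B n →₀ ℤ) →ₗ[ℤ] (K'.B m →₀ ℤ) :=
  Finsupp.linearCombination ℤ (fun b => K'.ch m (f b.1))

theorem cm_single (K K' : PSS) {n m : ℕ} (f : K.K n → K'.K m) (b : K.B n) :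
    cm K K' f (Finsupp.single b 1) = K'.ch m (f b.1) := by simp [cm]

theorem cm_ch (K K' : PSS) {n m : ℕ} (f : K.K n → K'.K m) (hf : f (K.pt n) = K'.pt m)
    (x : K.K n) : cm K K' f (K.ch n x) = K'.ch m (f x) := by
  by_cases h : x = K.pt n
  · rw [h, hf, ch_pt, ch_pt, map_zero]
  · rw [K.ch_of_ne ⟨x, h⟩, cm_single]

theorem cm_cm (K K' K'' : PSS) {n m l : ℕ} (f : K.K n → K'.K m) (g : K'.K m → K''.K l)
    (hg : g (K'.pt m) = K''.pt l) (x : K.B n →₀ ℤ) :
    cm K' K'' g (cm K K' f x) = cm K K'' (fun x => g (f x)) x := by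
  have : cm K' K'' g ∘ₗ cm K K' f = cm K K'' (fun x => g (f x)) := by
    ext b : 2
    simp [cm_single, cm_ch, hg]
  exact LinearMap.congr_fun this x

theorem cm_id (K : PSS) {n : ℕ} (f : K.K n → K.K n) (hf : ∀ x, f x = x) (x : K.B n →₀ ℤ) :
    cm K K f x = x := LinearMap.congr_fun (K.chMap_id f hf) x

/-- Maps of simplices compatible with base points and faces. -/
def fm (K K' : PSS) (f : ∀ n, K.K n → K'.K n) (hp : ∀ n, f n (K.pt n) = K'.pt n)
    (hd : ∀ n i x, i ≤ n + 1 → f n (K.d n i x) = K'.d n i (f (n + 1) x)) :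
    SMod.FM K.chain.toSMod K'.chain.toSMod where
  f n := cm K K' (f n)
  comm n i x hi := by
    change cm K K' (f n) (cm K K (K.d n i) x) = cm K' K' (K'.d n i) (cm K K' (f (n + 1)) x)
    rw [cm_cm K K K' _ _ (hp n), cm_cm K K' K' _ _ (K'.d_pt n i hi)]
    congr 2
    funext y
    exact hd n i y hi

section sub

variable (K : PSS) (L : K.Sub)

theorem toPSS_d (n i : ℕ) (hi : i ≤ n + 1) (x : L.toPSS.K (n + 1)) :
    (L.toPSS.d n i x).1 = K.d n i x.1 := by
  simp [Sub.toPSS, hi]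

theorem quot_d_q (n i : ℕ) (hi : i ≤ n + 1) (x : K.K (n + 1)) :
    (K.quot L).d n i (L.q (n + 1) x) = L.q n (K.d n i x) := by
  by_cases hx : L.P (n + 1) x
  · rw [L.q_of_mem hx, L.q_of_mem (L.d_mem n i x hi hx)]
    rfl
  · rw [L.q_of_not_mem ⟨x, hx⟩]
    simp [quot, hi]

open Classical in
/-- The retraction of simplices onto a simplicial subset. -/
def subR (n : ℕ) (x : K.K n) : L.toPSS.K n :=
  if h : L.P n x then ⟨x, h⟩ else L.toPSS.pt n

/-- The section of simplices. -/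
def quoS (n : ℕ) (x : (K.quot L).K n) : K.K n := Option.elim x (K.pt n) Subtype.val

theorem subR_pt (n : ℕ) : subR K L n (K.pt n) = L.toPSS.pt n := by
  rw [subR, dif_pos (L.pt_mem n)]
  rfl

theorem q_pt (n : ℕ) : L.q n (K.pt n) = (K.quot L).pt n := L.q_of_mem (L.pt_mem n)

/-- The short exact sequence of a simplicial subset. -/
def ses : SMod.SES L.toPSS.chain.toSMod K.chain.toSMod (K.quot L).chain.toSMod where
  i := fm L.toPSS K (fun n x => x.1) (fun n => rfl) (fun n i x hi => toPSS_d K L n i hi x)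
  p := fm K (K.quot L) (fun n x => L.q n x) (fun n => q_pt K L n)
    (fun n i x hi => (quot_d_q K L n i hi x).symm)
  r n := cm K L.toPSS (subR K L n)
  s n := cm (K.quot L) K (quoS K L n)
  ri n x := by
    change cm K L.toPSS (subR K L n) (cm L.toPSS K (fun x => x.1) x) = x
    rw [cm_cm _ _ _ _ _ (subR_pt K L n), cm_id]
    intro y
    rw [subR, dif_pos y.2]
    rfl
  ps n x := by
    change cm K (K.quot L) (L.q n) (cm (K.quot L) K (quoS K L n) x) = x
    rw [cm_cm _ _ _ _ _ (q_pt K L n), cm_id]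
    intro y
    rcases y with _ | y
    · exact q_pt K L n
    · exact L.q_of_not_mem y
  sum n x := by
    change cm L.toPSS K (fun x => x.1) (cm K L.toPSS (subR K L n) x) +
      cm (K.quot L) K (quoS K L n) (cm K (K.quot L) (L.q n) x) = x
    rw [cm_cm K L.toPSS K _ _ rfl, cm_cm K (K.quot L) K _ _ rfl]
    have : cm K K (fun x => (subR K L n x).1) + cm K K (fun x => quoS K L n (L.q n x)) =
        LinearMap.id := by
      ext b : 2
      simp only [LinearMap.comp_apply, LinearMap.add_apply, Finsupp.lsingle_apply,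
        LinearMap.id_apply]
      rw [cm_single, cm_single]
      by_cases h : L.P n b.1
      · rw [subR, dif_pos h, L.q_of_mem h, quoS, Option.elim_none, ch_pt, add_zero, ch_of_ne]
      · rw [subR, dif_neg h, L.q_of_not_mem ⟨b.1, h⟩, quoS, Option.elim_some, ch_of_ne]
        change K.ch n (K.pt n) + _ = _
        rw [ch_pt, zero_add]
    exact LinearMap.congr_fun this x

end sub

theorem free_chain (K : PSS) (n : ℕ) : Module.Free ℤ (K.chain.toSMod.M n) :=
  inferInstanceAs (Module.Free ℤ (K.B n →₀ ℤ))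

theorem acy_of_acyclic {K : PSS} (h : K.Acyclic) : K.chain.toSMod.Acy := by
  intro n z hz
  obtain ⟨w, hw⟩ := K.chain_acyclic h n z ((K.chain.toSMod_cyc n z).mp hz)
  exact ⟨w, (K.chain.toSMod_bd n w).trans hw⟩

theorem sgn_of_isS0 {K : PSS} (h : K.IsS0) : K.chain.toSMod.Sgn 0 := by
  refine SMod.Sgn.zero (fun n => ?_)
  obtain ⟨t, ht, ht'⟩ := h.1 n
  refine ⟨Finsupp.single (⟨t, ht⟩ : K.B n) (1 : ℤ), fun x => ?_⟩
  have hx : ∀ x : K.B n →₀ ℤ, x = (x ⟨t, ht⟩) • Finsupp.single (⟨t, ht⟩ : K.B n) (1 : ℤ) := by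
    intro x
    ext b
    obtain rfl : b = ⟨t, ht⟩ := Subtype.ext (ht' b.1 b.2)
    simp
  exact ⟨_, hx x⟩

/-- The swap acts as `(-1)^N` on the homology of `C ⊗ C ⊗ Y` for the chains `C` of an algebraic
`N`-sphere. -/
theorem sgn_of_algSphere {N : ℕ} {K : PSS} (h : AlgSphere N K) : K.chain.toSMod.Sgn N := by
  induction h with
  | one E L hE hL =>
    exact SMod.Sgn.susp (ses E L) (free_chain E) (acy_of_acyclic hE) (sgn_of_isS0 hL)
  | susp E L hE _ ih => exact SMod.Sgn.susp (ses E L) (free_chain E) (acy_of_acyclic hE) ih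
  | ofSub K L hQ _ ih => exact SMod.Sgn.ofSub (ses K L) (free_chain _) (acy_of_acyclic hQ) ih
  | ofQuot K L hL _ ih => exact SMod.Sgn.ofQuot (ses K L) (free_chain _) (acy_of_acyclic hL) ih
  | toQuot K L hL _ ih => exact SMod.Sgn.toQuot (ses K L) (free_chain _) (acy_of_acyclic hL) ih
  | iso K K' e _ ih =>
    refine SMod.Sgn.of_retract (fm K K' (fun n => e.e n) e.map_pt e.map_d)
      (fm K' K (fun n => (e.e n).symm) (fun n => ?_) (fun n i x hi => ?_)) (fun n x => ?_) ih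
    · rw [Equiv.symm_apply_eq, e.map_pt]
    · rw [Equiv.symm_apply_eq, e.map_d n i _ hi, Equiv.apply_symm_apply]
    · change cm K K' (e.e n) (cm K' K (e.e n).symm x) = x
      rw [cm_cm _ _ _ _ _ (e.map_pt n), cm_id]
      exact fun y => Equiv.apply_symm_apply _ y

/-- (I3). -/
theorem sgn_chain {N : ℕ} {K : PSS} (h : AlgSphere N K) (Y : SM) (q : ℕ)
    (z : (K.chain.tensor (K.chain.tensor Y)).T q)
    (hz : (K.chain.tensor (K.chain.tensor Y)).Cyc q z) :
    ∃ w, (K.chain.tensor (K.chain.tensor Y)).bd q w =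
      K.chain.swap Y q z - (-1 : ℤ) ^ N • z :=
  SM.sgn K.chain N (sgn_of_algSphere h) Y q z hz

end PSS

end

end Pool.Agent.Lib.MP_904b2a_gt
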