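import Mathlib
import Pool.Agent.Lib.MP_904b2a_gt.Sums

/-!
# MP_904b2a_gt, module ALG: simplicial modules, horn filling, normalisation, contractions

`SMod` = simplicial `ℤ`-modules (structure maps indexed by natural numbers, as in `PSS`).
-/

open scoped BigOperators TensorProduct
open Finset

namespace Pool.Agent.Lib.MP_904b2a_gt.H44

noncomputable section

/-- Simplicial modules. The faces `d n i` are meaningful for `i ≤ n + 1`, the degeneracies `s n i`
for `i ≤ n`. -/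
structure SMod where
  M : ℕ → Type
  [inst : ∀ n, AddCommGroup (M n)]
  d : ∀ n, ℕ → M (n + 1) →ₗ[ℤ] M n
  s : ∀ n, ℕ → M n →ₗ[ℤ] M (n + 1)
  d_d : ∀ n i j (x : M (n + 2)), i ≤ j → j ≤ n + 1 →
    d n i (d (n + 1) (j + 1) x) = d n j (d (n + 1) i x)
  d_s_lt : ∀ n i j (x : M (n + 1)), i ≤ j → j ≤ n →
    d (n + 1) i (s (n + 1) (j + 1) x) = s n j (d n i x)
  d_s_eq : ∀ n j (x : M n), j ≤ n → d n j (s n j x) = x
  d_s_succ : ∀ n j (x : M n), j ≤ n → d n (j + 1) (s n j x) = x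
  d_s_gt : ∀ n i j (x : M (n + 1)), j < i → i ≤ n + 1 →
    d (n + 1) (i + 1) (s (n + 1) j x) = s n j (d n i x)

attribute [instance] SMod.inst

namespace SMod

variable (T : SMod)

/-- The boundary. -/
def bd (n : ℕ) : T.M (n + 1) →ₗ[ℤ] T.M n :=
  ∑ i ∈ range (n + 2), (-1 : ℤ) ^ i • T.d n i

theorem bd_apply (n : ℕ) (x : T.M (n + 1)) :
    T.bd n x = ∑ i ∈ range (n + 2), (-1 : ℤ) ^ i • T.d n i x := by
  simp [bd, LinearMap.sum_apply]

theorem bd_bd (n : ℕ) (x : T.M (n + 2)) : T.bd n (T.bd (n + 1) x) = 0 := by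
  rw [bd_apply, bd_apply]
  simp only [map_sum, map_zsmul, smul_sum, smul_smul]
  rw [sum_comm]
  have := face_sum (n + 1) (fun i j => T.d n i (T.d (n + 1) j x))
    (fun i j hij hj => T.d_d n i j x hij hj)
  simpa only [← pow_add] using this

/-- Cycles. -/
def cyc : ∀ n, T.M n → Prop
  | 0, _ => True
  | n + 1, x => T.bd n x = 0

theorem cyc_zero' (n : ℕ) : T.cyc n 0 := by
  cases n with
  | zero => trivial
  | succ n => simp [cyc]

variable {T} in
theorem cyc.add {n : ℕ} {x y : T.M n} (hx : T.cyc n x) (hy : T.cyc n y) : T.cyc n (x + y) := by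
  cases n with
  | zero => trivial
  | succ n =>
    simp only [cyc] at *
    rw [map_add, hx, hy, add_zero]

variable {T} in
theorem cyc.sub {n : ℕ} {x y : T.M n} (hx : T.cyc n x) (hy : T.cyc n y) : T.cyc n (x - y) := by
  cases n with
  | zero => trivial
  | succ n =>
    simp only [cyc] at *
    rw [map_sub, hx, hy, sub_zero]

variable {T} in
theorem cyc.smul {n : ℕ} {x : T.M n} (c : ℤ) (hx : T.cyc n x) : T.cyc n (c • x) := by
  cases n with
  | zero => trivial
  | succ n =>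
    simp only [cyc] at *
    rw [map_zsmul, hx, smul_zero]

theorem cyc_bd (n : ℕ) (x : T.M (n + 1)) : T.cyc n (T.bd n x) := by
  cases n with
  | zero => trivial
  | succ n => exact T.bd_bd n x

/-! ### Horn filling and normalisation -/

/-- Compatible families of `n`-simplices (`n + 2` of them). -/
def Cp : ∀ n, (ℕ → T.M n) → Prop
  | 0, _ => True
  | n + 1, y => ∀ i j, i ≤ j → j ≤ n + 1 → T.d n i (y (j + 1)) = T.d n j (y i)

/-- All faces vanish. -/
def Nf : ∀ n, T.M n → Prop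
  | 0, _ => True
  | n + 1, z => ∀ i, i ≤ n + 1 → T.d n i z = 0

variable {T} in
theorem Nf.cyc {n : ℕ} {z : T.M n} (h : T.Nf n z) : T.cyc n z := by
  cases n with
  | zero => trivial
  | succ n =>
    change T.bd n z = 0
    rw [bd_apply]
    refine sum_eq_zero (fun i hi => ?_)
    rw [h i (by simpa [Nat.lt_succ_iff] using hi), smul_zero]

theorem horn (n : ℕ) (y : ℕ → T.M n) (hy : T.Cp n y) :
    ∃ t : T.M (n + 1), ∀ i, 1 ≤ i → i ≤ n + 1 → T.d n i t = y i := by
  cases n with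
  | zero =>
    refine ⟨T.s 0 0 (y 1), fun i h1 h2 => ?_⟩
    obtain rfl : i = 1 := by omega
    exact T.d_s_succ 0 0 (y 1) le_rfl
  | succ m =>
    have key : ∀ r, r ≤ m + 2 → ∃ t : T.M (m + 2), ∀ i, m + 3 - r ≤ i → i ≤ m + 2 →
        T.d (m + 1) i t = y i := by
      intro r
      induction r with
      | zero => exact fun _ => ⟨0, fun i h1 h2 => by omega⟩
      | succ r ih =>
        intro hr
        obtain ⟨t, ht⟩ := ih (by omega)
        obtain ⟨k, hk⟩ : ∃ k, m + 3 - (r + 1) = k + 1 := ⟨m + 1 - r, by omega⟩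
        have hkm : k ≤ m + 1 := by omega
        refine ⟨t + T.s (m + 1) k (y (k + 1) - T.d (m + 1) (k + 1) t), fun i h1 h2 => ?_⟩
        rw [hk] at h1
        rcases Nat.eq_or_lt_of_le h1 with h | h
        · subst h
          rw [map_add, T.d_s_succ (m + 1) k _ hkm]
          abel
        · obtain ⟨i', rfl⟩ : ∃ i', i = i' + 1 := ⟨i - 1, by omega⟩
          rw [map_add, T.d_s_gt m i' k _ (by omega) (by omega), map_sub,
            ← T.d_d m (k + 1) i' t (by omega) (by omega), ht (i' + 1) (by omega) h2,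
            hy (k + 1) i' (by omega) (by omega), sub_self, map_zero, add_zero]
    obtain ⟨t, ht⟩ := key (m + 2) le_rfl
    exact ⟨t, fun i h1 h2 => ht i (by omega) h2⟩

theorem normalise (n : ℕ) (z : T.M n) (hz : T.Nf n z) (w : T.M (n + 1)) (hw : T.bd n w = z) :
    ∃ w' : T.M (n + 1), T.d n 0 w' = z ∧ ∀ i, 1 ≤ i → i ≤ n + 1 → T.d n i w' = 0 := by
  cases n with
  | zero =>
    refine ⟨w - T.s 0 0 (T.d 0 1 w), ?_, fun i h1 h2 => ?_⟩
    · rw [map_sub, T.d_s_eq 0 0 _ le_rfl, ← hw, bd_apply]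
      simp [sum_range_succ, sub_eq_add_neg]
    · obtain rfl : i = 1 := by omega
      rw [map_sub, T.d_s_succ 0 0 _ le_rfl, sub_self]
  | succ m =>
    have key : ∀ r, r ≤ m + 2 → ∃ w : T.M (m + 2),
        (∀ i, m + 3 - r ≤ i → i ≤ m + 2 → T.d (m + 1) i w = 0) ∧
        ∑ i ∈ range (m + 3 - r), (-1 : ℤ) ^ i • T.d (m + 1) i w = z := by
      intro r
      induction r with
      | zero =>
        intro _
        refine ⟨w, fun i h1 h2 => by omega, ?_⟩
        rw [← hw, bd_apply]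
        rfl
      | succ r ih =>
        intro hr
        obtain ⟨w, hw1, hw2⟩ := ih (by omega)
        obtain ⟨k, hk⟩ : ∃ k, m + 3 - (r + 1) = k + 1 := ⟨m + 1 - r, by omega⟩
        have hk' : m + 3 - r = k + 2 := by omega
        rw [hk] 
        rw [hk'] at hw1 hw2
        have hkm : k ≤ m + 1 := by omega
        refine ⟨w - T.s (m + 1) k (T.d (m + 1) (k + 1) w), fun i h1 h2 => ?_, ?_⟩
        · rcases Nat.eq_or_lt_of_le h1 with h | h
          · subst h
            rw [map_sub, T.d_s_succ (m + 1) k _ hkm, sub_self]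
          · obtain ⟨i', rfl⟩ : ∃ i', i = i' + 1 := ⟨i - 1, by omega⟩
            rw [map_sub, T.d_s_gt m i' k _ (by omega) (by omega),
              ← T.d_d m (k + 1) i' w (by omega) (by omega), hw1 (i' + 1) (by omega) h2,
              map_zero, map_zero, sub_self]
        · rcases Nat.eq_zero_or_pos k with h0 | h0
          · subst h0
            rw [sum_range_one, map_sub, T.d_s_eq (m + 1) 0 _ (by omega), ← hw2]
            simp [sum_range_succ, sub_eq_add_neg]
          · obtain ⟨k', rfl⟩ : ∃ k', k = k' + 1 := ⟨k - 1, by omega⟩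
            rw [sum_range_succ, map_sub (T.d (m + 1) (k' + 1)), T.d_s_eq (m + 1) (k' + 1) _ hkm]
            have e1 : ∑ i ∈ range (k' + 1), (-1 : ℤ) ^ i •
                T.d (m + 1) i (w - T.s (m + 1) (k' + 1) (T.d (m + 1) (k' + 1 + 1) w)) =
                ∑ i ∈ range (k' + 1), (-1 : ℤ) ^ i • T.d (m + 1) i w -
                T.s m k' (T.d m (k' + 1) (∑ i ∈ range (k' + 1), (-1 : ℤ) ^ i •
                  T.d (m + 1) i w)) := by
              rw [map_sum, map_sum, ← sum_sub_distrib]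
              refine sum_congr rfl (fun i hi => ?_)
              have hi' : i ≤ k' := by simpa [Nat.lt_succ_iff] using hi
              rw [map_sub, T.d_s_lt m i k' _ hi' (by omega),
                T.d_d m i (k' + 1) w (by omega) (by omega), smul_sub, map_zsmul, map_zsmul]
            have e2 : ∑ i ∈ range (k' + 1), (-1 : ℤ) ^ i • T.d (m + 1) i w =
                z - (-1 : ℤ) ^ (k' + 1) • (T.d (m + 1) (k' + 1) w - T.d (m + 1) (k' + 2) w) := by
              rw [← hw2, show k' + 1 + 2 = (k' + 1) + 1 + 1 from rfl,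
                sum_range_succ _ (k' + 1 + 1), sum_range_succ _ (k' + 1),
                show (-1 : ℤ) ^ (k' + 1 + 1) = -(-1) ^ (k' + 1) by ring, neg_smul, smul_sub]
              generalize ∑ i ∈ range (k' + 1), (-1 : ℤ) ^ i • T.d (m + 1) i w = S
              generalize (-1 : ℤ) ^ (k' + 1) • T.d (m + 1) (k' + 1) w = A
              have hB : (-1 : ℤ) ^ (k' + 1) • T.d (m + 1) (k' + 1 + 1) w =
                (-1 : ℤ) ^ (k' + 1) • T.d (m + 1) (k' + 2) w := rfl
              rw [hB]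
              abel
            have e3 : T.d m (k' + 1) (z - (-1 : ℤ) ^ (k' + 1) •
                (T.d (m + 1) (k' + 1) w - T.d (m + 1) (k' + 2) w)) = 0 := by
              rw [map_sub, hz (k' + 1) (by omega), map_zsmul, map_sub,
                T.d_d m (k' + 1) (k' + 1) w le_rfl (by omega), sub_self, smul_zero, sub_self]
            rw [e1, e2, e3, map_zero, sub_zero]
            abel
    obtain ⟨w', h1, h2⟩ := key (m + 2) le_rfl
    refine ⟨w', ?_, fun i hi1 hi2 => h1 i (by omega) hi2⟩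
    rw [show m + 3 - (m + 2) = 1 by omega, sum_range_one] at h2
    simpa using h2

/-- Simplicial idempotents. -/
structure Idem where
  e : ∀ n, T.M n →ₗ[ℤ] T.M n
  e_e : ∀ n x, e n (e n x) = e n x
  e_d : ∀ n i x, i ≤ n + 1 → e n (T.d n i x) = T.d n i (e (n + 1) x)
  e_s : ∀ n i x, i ≤ n → e (n + 1) (T.s n i x) = T.s n i (e n x)

/-- The identity as an idempotent. -/
def Idem.id : T.Idem where
  e _ := LinearMap.id
  e_e _ _ := rfl
  e_d _ _ _ _ := rfl
  e_s _ _ _ _ := rfl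

variable {T}

theorem Idem.e_bd (e : T.Idem) (n : ℕ) (x : T.M (n + 1)) :
    e.e n (T.bd n x) = T.bd n (e.e (n + 1) x) := by
  rw [bd_apply, bd_apply, map_sum]
  refine sum_congr rfl (fun i hi => ?_)
  rw [map_zsmul, e.e_d n i x (by simpa [Nat.lt_succ_iff] using hi)]

/-- The homology of the image of the idempotent vanishes in degree `n`. -/
def Idem.Ex (e : T.Idem) (n : ℕ) : Prop :=
  ∀ z : T.M n, e.e n z = z → T.cyc n z → ∃ w, T.bd n w = z

theorem Idem.fill (e : T.Idem) (n : ℕ) (hex : e.Ex n) (y : ℕ → T.M n) (hy : T.Cp n y)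
    (hey : ∀ i, i ≤ n + 1 → e.e n (y i) = y i) :
    ∃ t : T.M (n + 1), e.e (n + 1) t = t ∧ ∀ i, i ≤ n + 1 → T.d n i t = y i := by
  obtain ⟨t0, ht0⟩ := T.horn n y hy
  have ht1 : ∀ i, 1 ≤ i → i ≤ n + 1 → T.d n i (e.e (n + 1) t0) = y i := by
    intro i h1 h2
    rw [← e.e_d n i _ h2, ht0 i h1 h2, hey i h2]
  set t1 := e.e (n + 1) t0 with ht1_def
  have het1 : e.e (n + 1) t1 = t1 := e.e_e _ _
  have hez : e.e n (y 0 - T.d n 0 t1) = y 0 - T.d n 0 t1 := by
    rw [map_sub, hey 0 (by omega), e.e_d n 0 t1 (by omega), het1]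
  have hNf : T.Nf n (y 0 - T.d n 0 t1) := by
    cases n with
    | zero => trivial
    | succ m =>
      intro j hj
      rw [map_sub, ← T.d_d m 0 j t1 (Nat.zero_le _) hj, ht1 (j + 1) (by omega) (by omega),
        hy 0 j (Nat.zero_le _) hj, sub_self]
  obtain ⟨w, hw⟩ := hex _ hez hNf.cyc
  obtain ⟨w', hw1, hw2⟩ := T.normalise n _ hNf w hw
  refine ⟨t1 + e.e (n + 1) w', ?_, fun i hi => ?_⟩
  · rw [map_add, het1, e.e_e]
  · rw [map_add, ← e.e_d n i w' hi]
    rcases Nat.eq_zero_or_pos i with h | h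
    · subst h
      rw [hw1, hez]
      abel
    · rw [hw2 i h hi, map_zero, add_zero, ht1 i h hi]

/-! ### Extra degeneracies -/

/-- The condition on `h k` which is needed to construct `h (k + 1)`. -/
def Idem.Phi (e : T.Idem) (k : ℕ) (h : T.M k →ₗ[ℤ] T.M (k + 1)) : Prop :=
  (∀ x, T.d k 0 (h x) = e.e k x) ∧ (∀ x, e.e (k + 1) (h x) = h x) ∧
    ∀ (x : T.M (k + 1)) (i j : ℕ), i < j → j ≤ k + 1 →
      T.d k (i + 1) (h (T.d k j x)) = T.d k j (h (T.d k i x))

theorem Idem.exists_h_zero (e : T.Idem) (hf : Module.Free ℤ (T.M 0)) (hex : e.Ex 0) :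
    ∃ h : T.M 0 →ₗ[ℤ] T.M 1, e.Phi 0 h ∧ ∀ x, T.d 0 1 (h x) = 0 := by
  let b := Module.Free.chooseBasis ℤ (T.M 0)
  have key : ∀ i, ∃ t : T.M 1, e.e 1 t = t ∧ T.d 0 0 t = e.e 0 (b i) ∧ T.d 0 1 t = 0 := by
    intro i
    obtain ⟨t, ht1, ht2⟩ := e.fill 0 hex (fun j => if j = 0 then e.e 0 (b i) else 0) trivial
      (by intro j _; split_ifs <;> simp [e.e_e])
    exact ⟨t, ht1, by simpa using ht2 0 (by omega), by simpa using ht2 1 (by omega)⟩
  choose t ht1 ht2 ht3 using key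
  let h : T.M 0 →ₗ[ℤ] T.M 1 := b.constr ℤ t
  have hb : ∀ i, h (b i) = t i := fun i => b.constr_basis ℤ t i
  have e1 : T.d 0 0 ∘ₗ h = e.e 0 := b.ext (fun i => by simp [hb, ht2])
  have e2 : e.e 1 ∘ₗ h = h := b.ext (fun i => by simp [hb, ht1])
  have e3 : T.d 0 1 ∘ₗ h = 0 := b.ext (fun i => by simp [hb, ht3])
  have e3' : ∀ x, T.d 0 1 (h x) = 0 := fun x => LinearMap.congr_fun e3 x
  refine ⟨h, ⟨fun x => LinearMap.congr_fun e1 x, fun x => LinearMap.congr_fun e2 x, ?_⟩, e3'⟩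
  intro x i j hij hj
  obtain rfl : i = 0 := by omega
  obtain rfl : j = 1 := by omega
  rw [e3', e3']

theorem Idem.exists_h_succ (e : T.Idem) (k : ℕ) (hf : Module.Free ℤ (T.M (k + 1)))
    (hex : e.Ex (k + 1)) (h : T.M k →ₗ[ℤ] T.M (k + 1)) (hh : e.Phi k h) :
    ∃ h' : T.M (k + 1) →ₗ[ℤ] T.M (k + 2), e.Phi (k + 1) h' ∧
      ∀ i, i ≤ k + 1 → ∀ x, T.d (k + 1) (i + 1) (h' x) = h (T.d k i x) := by
  obtain ⟨hh1, hh2, hh3⟩ := hh
  let b := Module.Free.chooseBasis ℤ (T.M (k + 1))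
  have key : ∀ l, ∃ t : T.M (k + 2), e.e (k + 2) t = t ∧ T.d (k + 1) 0 t = e.e (k + 1) (b l) ∧
      ∀ i, i ≤ k + 1 → T.d (k + 1) (i + 1) t = h (T.d k i (b l)) := by
    intro l
    obtain ⟨t, ht1, ht2⟩ := e.fill (k + 1) hex
      (fun j => match j with
        | 0 => e.e (k + 1) (b l)
        | j + 1 => h (T.d k j (b l)))
      (by
        intro i j hij hj
        cases i with
        | zero =>
          change T.d k 0 (h (T.d k j (b l))) = T.d k j (e.e (k + 1) (b l))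
          rw [hh1, e.e_d k j _ hj]
        | succ i => exact hh3 (b l) i j (by omega) hj)
      (by
        intro j _
        cases j with
        | zero => exact e.e_e _ _
        | succ j => exact hh2 _)
    exact ⟨t, ht1, ht2 0 (by omega), fun i hi => ht2 (i + 1) (by omega)⟩
  choose t ht1 ht2 ht3 using key
  let h' : T.M (k + 1) →ₗ[ℤ] T.M (k + 2) := b.constr ℤ t
  have hb : ∀ i, h' (b i) = t i := fun i => b.constr_basis ℤ t i
  have e1 : T.d (k + 1) 0 ∘ₗ h' = e.e (k + 1) := b.ext (fun i => by simp [hb, ht2])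
  have e2 : e.e (k + 2) ∘ₗ h' = h' := b.ext (fun i => by simp [hb, ht1])
  have e3 : ∀ i, i ≤ k + 1 → T.d (k + 1) (i + 1) ∘ₗ h' = h ∘ₗ T.d k i :=
    fun i hi => b.ext (fun l => by simp [hb, ht3 l i hi])
  have e3' : ∀ i, i ≤ k + 1 → ∀ x, T.d (k + 1) (i + 1) (h' x) = h (T.d k i x) :=
    fun i hi x => LinearMap.congr_fun (e3 i hi) x
  refine ⟨h', ⟨fun x => LinearMap.congr_fun e1 x, fun x => LinearMap.congr_fun e2 x, ?_⟩, e3'⟩
  intro x i j hij hj
  obtain ⟨j', rfl⟩ : ∃ j', j = j' + 1 := ⟨j - 1, by omega⟩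
  rw [e3' i (by omega), e3' j' (by omega), T.d_d k i j' x (by omega) (by omega)]

/-- A contraction of the image of an idempotent in degrees `< a` by an extra degeneracy. -/
structure Idem.Ctr (e : T.Idem) (a : ℕ) where
  h : ∀ k, T.M k →ₗ[ℤ] T.M (k + 1)
  h0 : ∀ k, k < a → ∀ x, T.d k 0 (h k x) = e.e k x
  hS : ∀ k, k + 1 < a → ∀ i, i ≤ k + 1 → ∀ x, T.d (k + 1) (i + 1) (h (k + 1) x) = h k (T.d k i x)
  h1 : 0 < a → ∀ x, T.d 0 1 (h 0 x) = 0

theorem Idem.exists_ctr (e : T.Idem) (hf : ∀ n, Module.Free ℤ (T.M n)) (a : ℕ)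
    (hex : ∀ k, k < a → e.Ex k) : Nonempty (e.Ctr a) := by
  classical
  have h0 : ∃ h : T.M 0 →ₗ[ℤ] T.M 1, 0 < a → e.Phi 0 h ∧ ∀ x, T.d 0 1 (h x) = 0 := by
    by_cases ha : 0 < a
    · obtain ⟨h, hh⟩ := e.exists_h_zero (hf 0) (hex 0 ha)
      exact ⟨h, fun _ => hh⟩
    · exact ⟨0, fun h => absurd h ha⟩
  have hS : ∀ k (h : T.M k →ₗ[ℤ] T.M (k + 1)), (k < a → e.Phi k h) →
      ∃ h' : T.M (k + 1) →ₗ[ℤ] T.M (k + 2), k + 1 < a → e.Phi (k + 1) h' ∧
        ∀ i, i ≤ k + 1 → ∀ x, T.d (k + 1) (i + 1) (h' x) = h (T.d k i x) := by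
    intro k h hh
    by_cases ha : k + 1 < a
    · obtain ⟨h', hh'⟩ := e.exists_h_succ k (hf _) (hex _ ha) h (hh (by omega))
      exact ⟨h', fun _ => hh'⟩
    · exact ⟨0, fun h => absurd h ha⟩
  let st : ∀ k, {h : T.M k →ₗ[ℤ] T.M (k + 1) // k < a → e.Phi k h} := fun k =>
    Nat.rec (motive := fun k => {h : T.M k →ₗ[ℤ] T.M (k + 1) // k < a → e.Phi k h})
      ⟨h0.choose, fun ha => (h0.choose_spec ha).1⟩
      (fun k ih => ⟨(hS k ih.1 ih.2).choose, fun ha => ((hS k ih.1 ih.2).choose_spec ha).1⟩) k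
  exact ⟨{
    h := fun k => (st k).1
    h0 := fun k hk x => ((st k).2 hk).1 x
    hS := fun k hk i hi x => ((hS k (st k).1 (st k).2).choose_spec hk).2 i hi x
    h1 := fun ha x => (h0.choose_spec ha).2 x }⟩

/-! ### Homotopies (compatible with faces only) -/

/-- A simplicial homotopy from `f` to `g` in degrees `< a`; only the identities between the
homotopy and the faces are required. -/
structure FH (T T' : SMod) (f g : ∀ n, T.M n →ₗ[ℤ] T'.M n) (a : ℕ) where
  H : ∀ _ k : ℕ, T.M k →ₗ[ℤ] T'.M (k + 1)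
  h1 : ∀ k i j, k + 1 < a → i ≤ j → j ≤ k →
    T'.d (k + 1) i ∘ₗ H (j + 1) (k + 1) = H j k ∘ₗ T.d k i
  h2 : ∀ k i j, k + 1 < a → j < i → i ≤ k + 1 →
    T'.d (k + 1) (i + 1) ∘ₗ H j (k + 1) = H j k ∘ₗ T.d k i
  h3 : ∀ k i, k + 1 < a → i < k + 1 →
    T'.d (k + 1) (i + 1) ∘ₗ H (i + 1) (k + 1) = T'.d (k + 1) (i + 1) ∘ₗ H i (k + 1)
  e0 : ∀ k, k < a → T'.d k 0 ∘ₗ H 0 k = f k
  e1 : ∀ k, k < a → T'.d k (k + 1) ∘ₗ H k k = g k

theorem FH.exists_bd {T T' : SMod} {f g : ∀ n, T.M n →ₗ[ℤ] T'.M n} {a : ℕ} (F : FH T T' f g a)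
    (k : ℕ) (hk : k < a) (x : T.M k) (hx : T.cyc k x) :
    ∃ y, T'.bd k y = f k x - g k x := by
  cases k with
  | zero =>
    refine ⟨F.H 0 0 x, ?_⟩
    rw [bd_apply, ← F.e0 0 hk, ← F.e1 0 hk]
    simp [sum_range_succ, sub_eq_add_neg]
  | succ m =>
    refine ⟨∑ j ∈ range (m + 2), (-1 : ℤ) ^ j • F.H j (m + 1) x, ?_⟩
    have := homotopy_sum (m + 1) (fun i j => T'.d (m + 1) i (F.H j (m + 1) x))
      (fun i j => F.H j m (T.d m i x))
      (fun i j hij hj => LinearMap.congr_fun (F.h1 m i j hk hij (by omega)) x)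
      (fun i j hij hj => LinearMap.congr_fun (F.h2 m i j hk hij hj) x)
      (fun i hi => LinearMap.congr_fun (F.h3 m i hk hi) x)
    have e1 : ∑ j ∈ range (m + 1), ∑ i ∈ range (m + 1 + 1),
        (-1 : ℤ) ^ (i + j) • F.H j m (T.d m i x) = 0 := by
      have : ∀ j ∈ range (m + 1), ∑ i ∈ range (m + 1 + 1),
          (-1 : ℤ) ^ (i + j) • F.H j m (T.d m i x) = (-1 : ℤ) ^ j • F.H j m (T.bd m x) := by
        intro j _
        rw [bd_apply, map_sum, smul_sum]
        refine sum_congr rfl (fun i _ => ?_)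
        rw [map_zsmul, smul_smul, pow_add, mul_comm]
      rw [sum_congr rfl this]
      have hx' : T.bd m x = 0 := hx
      simp [hx']
    rw [e1, add_zero] at this
    rw [bd_apply, ← F.e0 (m + 1) hk, ← F.e1 (m + 1) hk]
    simp only [LinearMap.comp_apply]
    rw [← this, sum_comm]
    refine sum_congr rfl (fun i _ => ?_)
    rw [map_sum, smul_sum]
    refine sum_congr rfl (fun j _ => ?_)
    rw [map_zsmul, smul_smul, pow_add]

/-- The homotopy given by an extra degeneracy. -/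
def Idem.Ctr.H {e : T.Idem} {a : ℕ} (c : e.Ctr a) : ∀ _ k : ℕ, T.M k →ₗ[ℤ] T.M (k + 1)
  | 0, k => c.h k
  | _ + 1, 0 => 0
  | j + 1, k + 1 => T.s (k + 1) 0 ∘ₗ Idem.Ctr.H c j k ∘ₗ T.d k 0

theorem Idem.Ctr.H_succ {e : T.Idem} {a : ℕ} (c : e.Ctr a) (j k : ℕ) (x : T.M (k + 1)) :
    c.H (j + 1) (k + 1) x = T.s (k + 1) 0 (c.H j k (T.d k 0 x)) := rfl

theorem Idem.Ctr.H1 {e : T.Idem} {a : ℕ} (c : e.Ctr a) : ∀ j k i, k + 1 < a → i ≤ j → j ≤ k →
    ∀ x, T.d (k + 1) i (c.H (j + 1) (k + 1) x) = c.H j k (T.d k i x) := by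
  intro j
  induction j with
  | zero =>
    intro k i hk hi hj x
    obtain rfl : i = 0 := by omega
    rw [c.H_succ, T.d_s_eq (k + 1) 0 _ (by omega)]
  | succ j ih =>
    intro k i hk hi hj x
    obtain ⟨k', rfl⟩ : ∃ k', k = k' + 1 := ⟨k - 1, by omega⟩
    rw [c.H_succ]
    rcases i with _ | _ | i
    · rw [T.d_s_eq _ 0 _ (by omega)]
    · rw [T.d_s_succ _ 0 _ (by omega), c.H_succ, c.H_succ,
        T.d_d k' 0 0 x le_rfl (by omega)]
    · rw [T.d_s_gt _ (i + 1) 0 _ (by omega) (by omega), ih k' (i + 1) (by omega) (by omega)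
        (by omega), c.H_succ, T.d_d k' 0 (i + 1) x (by omega) (by omega)]

theorem Idem.Ctr.H2 {e : T.Idem} {a : ℕ} (c : e.Ctr a) : ∀ j k i, k + 1 < a → j < i →
    i ≤ k + 1 → ∀ x, T.d (k + 1) (i + 1) (c.H j (k + 1) x) = c.H j k (T.d k i x) := by
  intro j
  induction j with
  | zero => exact fun k i hk _ hi x => c.hS k hk i hi x
  | succ j ih =>
    intro k i hk hij hi x
    obtain ⟨k', rfl⟩ : ∃ k', k = k' + 1 := ⟨k - 1, by omega⟩
    obtain ⟨i', rfl⟩ : ∃ i', i = i' + 1 := ⟨i - 1, by omega⟩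
    rw [c.H_succ, T.d_s_gt _ (i' + 1) 0 _ (by omega) (by omega), ih k' i' (by omega) (by omega)
      (by omega), c.H_succ, T.d_d k' 0 i' x (by omega) (by omega)]

theorem Idem.Ctr.H3 {e : T.Idem} {a : ℕ} (c : e.Ctr a) : ∀ i k, k + 1 < a → i < k + 1 →
    ∀ x, T.d (k + 1) (i + 1) (c.H (i + 1) (k + 1) x) = T.d (k + 1) (i + 1) (c.H i (k + 1) x) := by
  intro i
  induction i with
  | zero =>
    intro k hk _ x
    rw [c.H_succ, T.d_s_succ _ 0 _ (by omega)]
    exact (c.hS k hk 0 (by omega) x).symm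
  | succ i ih =>
    intro k hk hi x
    obtain ⟨k', rfl⟩ : ∃ k', k = k' + 1 := ⟨k - 1, by omega⟩
    rw [c.H_succ (i + 1) (k' + 1) x, c.H_succ i (k' + 1) x,
      T.d_s_gt _ (i + 1) 0 _ (by omega) (by omega),
      T.d_s_gt _ (i + 1) 0 _ (by omega) (by omega), ih k' (by omega) (by omega)]

theorem Idem.Ctr.HE {e : T.Idem} {a : ℕ} (c : e.Ctr a) : ∀ k, k < a →
    ∀ x, T.d k (k + 1) (c.H k k x) = 0 := by
  intro k
  induction k with
  | zero => exact fun hk x => c.h1 hk x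
  | succ k ih =>
    intro hk x
    rw [c.H_succ, T.d_s_gt _ (k + 1) 0 _ (by omega) (by omega), ih (by omega), map_zero]

/-- An extra degeneracy gives a homotopy from `e` to `0`. -/
def Idem.Ctr.FH {e : T.Idem} {a : ℕ} (c : e.Ctr a) : SMod.FH T T e.e (fun _ => 0) a where
  H := c.H
  h1 k i j hk hij hj := LinearMap.ext (c.H1 j k i hk hij hj)
  h2 k i j hk hij hi := LinearMap.ext (c.H2 j k i hk hij hi)
  h3 k i hk hi := LinearMap.ext (c.H3 i k hk hi)
  e0 k hk := LinearMap.ext (c.h0 k hk)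
  e1 k hk := LinearMap.ext (c.HE k hk)

/-! ### Tensor products -/

/-- The (levelwise) tensor product. -/
def tens (T Y : SMod) : SMod where
  M n := T.M n ⊗[ℤ] Y.M n
  d n i := TensorProduct.map (T.d n i) (Y.d n i)
  s n i := TensorProduct.map (T.s n i) (Y.s n i)
  d_d n i j x hij hj := by
    have : (TensorProduct.map (T.d n i) (Y.d n i)) ∘ₗ
        (TensorProduct.map (T.d (n + 1) (j + 1)) (Y.d (n + 1) (j + 1))) =
        (TensorProduct.map (T.d n j) (Y.d n j)) ∘ₗ
        (TensorProduct.map (T.d (n + 1) i) (Y.d (n + 1) i)) :=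
      TensorProduct.ext' (fun t y => by simp [T.d_d n i j t hij hj, Y.d_d n i j y hij hj])
    exact LinearMap.congr_fun this x
  d_s_lt n i j x hij hj := by
    have : (TensorProduct.map (T.d (n + 1) i) (Y.d (n + 1) i)) ∘ₗ
        (TensorProduct.map (T.s (n + 1) (j + 1)) (Y.s (n + 1) (j + 1))) =
        (TensorProduct.map (T.s n j) (Y.s n j)) ∘ₗ
        (TensorProduct.map (T.d n i) (Y.d n i)) :=
      TensorProduct.ext' (fun t y => by simp [T.d_s_lt n i j t hij hj, Y.d_s_lt n i j y hij hj])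
    exact LinearMap.congr_fun this x
  d_s_eq n j x hj := by
    have : (TensorProduct.map (T.d n j) (Y.d n j)) ∘ₗ
        (TensorProduct.map (T.s n j) (Y.s n j)) = LinearMap.id :=
      TensorProduct.ext' (fun t y => by simp [T.d_s_eq n j t hj, Y.d_s_eq n j y hj])
    exact LinearMap.congr_fun this x
  d_s_succ n j x hj := by
    have : (TensorProduct.map (T.d n (j + 1)) (Y.d n (j + 1))) ∘ₗ
        (TensorProduct.map (T.s n j) (Y.s n j)) = LinearMap.id :=
      TensorProduct.ext' (fun t y => by simp [T.d_s_succ n j t hj, Y.d_s_succ n j y hj])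
    exact LinearMap.congr_fun this x
  d_s_gt n i j x hij hi := by
    have : (TensorProduct.map (T.d (n + 1) (i + 1)) (Y.d (n + 1) (i + 1))) ∘ₗ
        (TensorProduct.map (T.s (n + 1) j) (Y.s (n + 1) j)) =
        (TensorProduct.map (T.s n j) (Y.s n j)) ∘ₗ
        (TensorProduct.map (T.d n i) (Y.d n i)) :=
      TensorProduct.ext' (fun t y => by simp [T.d_s_gt n i j t hij hi, Y.d_s_gt n i j y hij hi])
    exact LinearMap.congr_fun this x

/-- Tensoring a homotopy. -/
def FH.tens {T T' : SMod} {f g : ∀ n, T.M n →ₗ[ℤ] T'.M n} {a : ℕ} (F : FH T T' f g a)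
    (Y : SMod) : FH (SMod.tens T Y) (SMod.tens T' Y)
      (fun n => TensorProduct.map (f n) LinearMap.id)
      (fun n => TensorProduct.map (g n) LinearMap.id) a where
  H j k := TensorProduct.map (F.H j k) (Y.s k j)
  h1 k i j hk hij hj := by
    change TensorProduct.map _ _ ∘ₗ TensorProduct.map _ _ =
      TensorProduct.map _ _ ∘ₗ TensorProduct.map _ _
    rw [← TensorProduct.map_comp, ← TensorProduct.map_comp, F.h1 k i j hk hij hj]
    congr 1
    exact LinearMap.ext (fun y => Y.d_s_lt k i j y hij hj)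
  h2 k i j hk hij hi := by
    change TensorProduct.map _ _ ∘ₗ TensorProduct.map _ _ =
      TensorProduct.map _ _ ∘ₗ TensorProduct.map _ _
    rw [← TensorProduct.map_comp, ← TensorProduct.map_comp, F.h2 k i j hk hij hi]
    congr 1
    exact LinearMap.ext (fun y => Y.d_s_gt k i j y hij hi)
  h3 k i hk hi := by
    change TensorProduct.map _ _ ∘ₗ TensorProduct.map _ _ =
      TensorProduct.map _ _ ∘ₗ TensorProduct.map _ _
    rw [← TensorProduct.map_comp, ← TensorProduct.map_comp, F.h3 k i hk hi]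
    congr 1
    exact LinearMap.ext (fun y =>
      (Y.d_s_eq (k + 1) (i + 1) y (by omega)).trans (Y.d_s_succ (k + 1) i y (by omega)).symm)
  e0 k hk := by
    change TensorProduct.map _ _ ∘ₗ TensorProduct.map _ _ = _
    rw [← TensorProduct.map_comp, F.e0 k hk]
    congr 1
    exact LinearMap.ext (fun y => Y.d_s_eq k 0 y (by omega))
  e1 k hk := by
    change TensorProduct.map _ _ ∘ₗ TensorProduct.map _ _ = _
    rw [← TensorProduct.map_comp, F.e1 k hk]
    congr 1
    exact LinearMap.ext (fun y => Y.d_s_succ k k y le_rfl)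

/-- If the image of the idempotent `e` on the levelwise free `T` has no homology in degrees
`< a` then neither has its tensor product with any simplicial module. -/
theorem Idem.tens_ex (e : T.Idem) (hf : ∀ n, Module.Free ℤ (T.M n)) (a : ℕ)
    (hex : ∀ k, k < a → e.Ex k) (Y : SMod) (k : ℕ) (hk : k < a) (x : (SMod.tens T Y).M k)
    (hx : (SMod.tens T Y).cyc k x) :
    ∃ y, (SMod.tens T Y).bd k y = TensorProduct.map (e.e k) LinearMap.id x := by
  obtain ⟨c⟩ := e.exists_ctr hf a hex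
  obtain ⟨y, hy⟩ := (c.FH.tens Y).exists_bd k hk x hx
  refine ⟨y, ?_⟩
  have h0 : TensorProduct.map (0 : T.M k →ₗ[ℤ] T.M k) (LinearMap.id : Y.M k →ₗ[ℤ] Y.M k) = 0 :=
    TensorProduct.map_zero_left _
  rw [hy, h0]
  exact sub_zero _

end SMod

end

end Pool.Agent.Lib.MP_904b2a_gt.H44
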