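import Pool.Agent.Lib.MP_904b2a_gt.H44.SMod

/-!
# MP_904b2a_gt, module ALG (A5): the swap on `H_*(C ⊗ C ⊗ Y)`
-/

open scoped BigOperators TensorProduct
open Finset

namespace Pool.Agent.Lib.MP_904b2a_gt.H44

noncomputable section

namespace SMod

/-- Families of linear maps compatible with the faces. -/
structure FM (T T' : SMod) where
  f : ∀ n, T.M n →ₗ[ℤ] T'.M n
  comm : ∀ n i x, i ≤ n + 1 → f n (T.d n i x) = T'.d n i (f (n + 1) x)

theorem FM.bd {T T' : SMod} (φ : FM T T') (n : ℕ) (x : T.M (n + 1)) :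
    φ.f n (T.bd n x) = T'.bd n (φ.f (n + 1) x) := by
  rw [bd_apply, bd_apply, map_sum]
  refine sum_congr rfl (fun i hi => ?_)
  rw [map_zsmul, φ.comm n i x (by simpa [Nat.lt_succ_iff] using hi)]

theorem FM.cyc {T T' : SMod} (φ : FM T T') {n : ℕ} {x : T.M n} (hx : T.cyc n x) :
    T'.cyc n (φ.f n x) := by
  cases n with
  | zero => trivial
  | succ n =>
    change T'.bd n _ = 0
    rw [← φ.bd, show T.bd n x = 0 from hx, map_zero]

/-- The identity. -/
def FM.id (T : SMod) : FM T T := ⟨fun _ => LinearMap.id, fun _ _ _ _ => rfl⟩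

/-- Composition. -/
def FM.comp {T T' T'' : SMod} (ψ : FM T' T'') (φ : FM T T') : FM T T'' where
  f n := ψ.f n ∘ₗ φ.f n
  comm n i x hi := by simp only [LinearMap.comp_apply, φ.comm n i x hi, ψ.comm n i _ hi]

/-- Tensor products of maps. -/
def FM.tens {T T' Y Y' : SMod} (φ : FM T T') (ψ : FM Y Y') :
    FM (SMod.tens T Y) (SMod.tens T' Y') where
  f n := TensorProduct.map (φ.f n) (ψ.f n)
  comm n i x hi := by
    have : (TensorProduct.map (φ.f n) (ψ.f n)) ∘ₗ (TensorProduct.map (T.d n i) (Y.d n i)) =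
        (TensorProduct.map (T'.d n i) (Y'.d n i)) ∘ₗ
          (TensorProduct.map (φ.f (n + 1)) (ψ.f (n + 1))) :=
      TensorProduct.ext' (fun t y => by simp [φ.comm n i t hi, ψ.comm n i y hi])
    exact LinearMap.congr_fun this x

/-- Equality of linear maps on triple tensor products. -/
theorem ext3 {R : Type*} [CommSemiring R] {M N P Q : Type*} [AddCommMonoid M] [AddCommMonoid N]
    [AddCommMonoid P] [AddCommMonoid Q] [Module R M] [Module R N] [Module R P] [Module R Q]
    {f g : M ⊗[R] (N ⊗[R] P) →ₗ[R] Q}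
    (h : ∀ a b c, f (a ⊗ₜ (b ⊗ₜ c)) = g (a ⊗ₜ (b ⊗ₜ c))) : f = g := by
  refine TensorProduct.ext' (fun a z => ?_)
  have : f ∘ₗ TensorProduct.mk R M (N ⊗[R] P) a = g ∘ₗ TensorProduct.mk R M (N ⊗[R] P) a :=
    TensorProduct.ext' (fun b c => h a b c)
  exact LinearMap.congr_fun this z

/-- The swap. -/
def swap (U V Y : SMod) : FM (tens U (tens V Y)) (tens V (tens U Y)) where
  f n := (TensorProduct.leftComm ℤ (U.M n) (V.M n) (Y.M n)).toLinearMap
  comm n i x hi := by
    have : (TensorProduct.leftComm ℤ (U.M n) (V.M n) (Y.M n)).toLinearMap ∘ₗ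
        (TensorProduct.map (U.d n i) (TensorProduct.map (V.d n i) (Y.d n i))) =
        (TensorProduct.map (V.d n i) (TensorProduct.map (U.d n i) (Y.d n i))) ∘ₗ
        (TensorProduct.leftComm ℤ (U.M (n + 1)) (V.M (n + 1)) (Y.M (n + 1))).toLinearMap :=
      ext3 (fun a b c => by simp)
    exact LinearMap.congr_fun this x

theorem swap_swap (U V Y : SMod) (n : ℕ) (x : (tens U (tens V Y)).M n) :
    (swap V U Y).f n ((swap U V Y).f n x) = x := by
  have : (TensorProduct.leftComm ℤ (V.M n) (U.M n) (Y.M n)).toLinearMap ∘ₗ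
      (TensorProduct.leftComm ℤ (U.M n) (V.M n) (Y.M n)).toLinearMap = LinearMap.id :=
    ext3 (fun a b c => by simp)
  exact LinearMap.congr_fun this x

/-- The commutativity of the tensor product. -/
def comm (U Y : SMod) : FM (tens U Y) (tens Y U) where
  f n := (TensorProduct.comm ℤ (U.M n) (Y.M n)).toLinearMap
  comm n i x hi := by
    have : (TensorProduct.comm ℤ (U.M n) (Y.M n)).toLinearMap ∘ₗ
        (TensorProduct.map (U.d n i) (Y.d n i)) =
        (TensorProduct.map (Y.d n i) (U.d n i)) ∘ₗ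
        (TensorProduct.comm ℤ (U.M (n + 1)) (Y.M (n + 1))).toLinearMap :=
      TensorProduct.ext' (fun a b => by simp)
    exact LinearMap.congr_fun this x

/-- Acyclic simplicial modules. -/
def Acy (T : SMod) : Prop := ∀ n (z : T.M n), T.cyc n z → ∃ w, T.bd n w = z

theorem Acy.of_retract {T T' : SMod} (φ : FM T T') (ψ : FM T' T)
    (h : ∀ n x, φ.f n (ψ.f n x) = x) (hT : T.Acy) : T'.Acy := by
  intro n z hz
  obtain ⟨w, hw⟩ := hT n _ (ψ.cyc hz)
  exact ⟨φ.f (n + 1) w, by rw [← φ.bd, hw, h]⟩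

theorem Acy.tens {T : SMod} (hT : T.Acy) (hf : ∀ n, Module.Free ℤ (T.M n)) (Y : SMod) :
    (SMod.tens T Y).Acy := by
  intro n z hz
  obtain ⟨y, hy⟩ := (Idem.id T).tens_ex hf (n + 1) (fun k _ w _ hw => hT k w hw) Y n
    (Nat.lt_succ_self n) z hz
  refine ⟨y, hy.trans ?_⟩
  change TensorProduct.map LinearMap.id LinearMap.id z = z
  rw [TensorProduct.map_id]
  rfl

theorem Acy.tens' {T : SMod} (hT : T.Acy) (hf : ∀ n, Module.Free ℤ (T.M n)) (Z Y : SMod) :
    (SMod.tens Z (SMod.tens T Y)).Acy :=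
  Acy.of_retract (swap T Z Y) (swap Z T Y) (fun n x => swap_swap Z T Y n x) (hT.tens hf _)

/-- Levelwise split short exact sequences. -/
structure SES (A P C : SMod) where
  i : FM A P
  p : FM P C
  r : ∀ n, P.M n →ₗ[ℤ] A.M n
  s : ∀ n, C.M n →ₗ[ℤ] P.M n
  ri : ∀ n x, r n (i.f n x) = x
  ps : ∀ n x, p.f n (s n x) = x
  sum : ∀ n x, i.f n (r n x) + s n (p.f n x) = x

namespace SES

variable {A P C : SMod} (E : SES A P C)

theorem pi (n : ℕ) (x : A.M n) : E.p.f n (E.i.f n x) = 0 := by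
  have h := E.sum n (E.i.f n x)
  rw [E.ri, add_eq_left] at h
  rw [← E.ps n (E.p.f n (E.i.f n x)), h, map_zero]

theorem i_inj {n : ℕ} {x : A.M n} (h : E.i.f n x = 0) : x = 0 := by
  rw [← E.ri n x, h, map_zero]

theorem eq_ir {n : ℕ} {x : P.M n} (h : E.p.f n x = 0) : E.i.f n (E.r n x) = x := by
  have := E.sum n x
  rwa [h, map_zero, add_zero] at this

theorem i_cyc {n : ℕ} {x : A.M n} (h : P.cyc n (E.i.f n x)) : A.cyc n x := by
  cases n with
  | zero => trivial
  | succ n =>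
    change P.bd n _ = 0 at h
    rw [← E.i.bd] at h
    exact E.i_inj h

/-- Tensoring on the right. -/
def tens (Y : SMod) : SES (SMod.tens A Y) (SMod.tens P Y) (SMod.tens C Y) where
  i := E.i.tens (FM.id Y)
  p := E.p.tens (FM.id Y)
  r n := TensorProduct.map (E.r n) LinearMap.id
  s n := TensorProduct.map (E.s n) LinearMap.id
  ri n x := by
    have : (TensorProduct.map (E.r n) LinearMap.id) ∘ₗ
        (TensorProduct.map (E.i.f n) (LinearMap.id : Y.M n →ₗ[ℤ] Y.M n)) = LinearMap.id :=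
      TensorProduct.ext' (fun a y => by simp [E.ri])
    exact LinearMap.congr_fun this x
  ps n x := by
    have : (TensorProduct.map (E.p.f n) LinearMap.id) ∘ₗ
        (TensorProduct.map (E.s n) (LinearMap.id : Y.M n →ₗ[ℤ] Y.M n)) = LinearMap.id :=
      TensorProduct.ext' (fun a y => by simp [E.ps])
    exact LinearMap.congr_fun this x
  sum n x := by
    have : (TensorProduct.map (E.i.f n) (LinearMap.id : Y.M n →ₗ[ℤ] Y.M n)) ∘ₗ
        (TensorProduct.map (E.r n) LinearMap.id) +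
        (TensorProduct.map (E.s n) LinearMap.id) ∘ₗ
        (TensorProduct.map (E.p.f n) (LinearMap.id : Y.M n →ₗ[ℤ] Y.M n)) = LinearMap.id :=
      TensorProduct.ext' (fun a y => by
        simp only [LinearMap.add_apply, LinearMap.comp_apply, TensorProduct.map_tmul,
          LinearMap.id_apply]
        rw [← TensorProduct.add_tmul, E.sum])
    exact LinearMap.congr_fun this x

/-- Tensoring on the left. -/
def tensL (Z : SMod) : SES (SMod.tens Z A) (SMod.tens Z P) (SMod.tens Z C) where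
  i := (FM.id Z).tens E.i
  p := (FM.id Z).tens E.p
  r n := TensorProduct.map LinearMap.id (E.r n)
  s n := TensorProduct.map LinearMap.id (E.s n)
  ri n x := by
    have : (TensorProduct.map LinearMap.id (E.r n)) ∘ₗ
        (TensorProduct.map (LinearMap.id : Z.M n →ₗ[ℤ] Z.M n) (E.i.f n)) = LinearMap.id :=
      TensorProduct.ext' (fun a y => by simp [E.ri])
    exact LinearMap.congr_fun this x
  ps n x := by
    have : (TensorProduct.map LinearMap.id (E.p.f n)) ∘ₗ
        (TensorProduct.map (LinearMap.id : Z.M n →ₗ[ℤ] Z.M n) (E.s n)) = LinearMap.id :=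
      TensorProduct.ext' (fun a y => by simp [E.ps])
    exact LinearMap.congr_fun this x
  sum n x := by
    have : (TensorProduct.map (LinearMap.id : Z.M n →ₗ[ℤ] Z.M n) (E.i.f n)) ∘ₗ
        (TensorProduct.map LinearMap.id (E.r n)) +
        (TensorProduct.map LinearMap.id (E.s n)) ∘ₗ
        (TensorProduct.map (LinearMap.id : Z.M n →ₗ[ℤ] Z.M n) (E.p.f n)) = LinearMap.id :=
      TensorProduct.ext' (fun a y => by
        simp only [LinearMap.add_apply, LinearMap.comp_apply, TensorProduct.map_tmul,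
          LinearMap.id_apply]
        rw [← TensorProduct.tmul_add, E.sum])
    exact LinearMap.congr_fun this x

/-- If the kernel is acyclic then the quotient map is injective in homology. -/
theorem bd_of_bd (hA : A.Acy) {n : ℕ} {x : P.M n} (hx : P.cyc n x) {u : C.M (n + 1)}
    (hu : C.bd n u = E.p.f n x) : ∃ w, P.bd n w = x := by
  have hx1 : P.cyc n (x - P.bd n (E.s (n + 1) u)) := hx.sub (P.cyc_bd n _)
  have hp : E.p.f n (x - P.bd n (E.s (n + 1) u)) = 0 := by
    rw [map_sub, E.p.bd, E.ps, hu, sub_self]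
  have h1 := E.eq_ir hp
  obtain ⟨v, hv⟩ := hA n (E.r n (x - P.bd n (E.s (n + 1) u))) (E.i_cyc (by rw [h1]; exact hx1))
  refine ⟨E.i.f (n + 1) v + E.s (n + 1) u, ?_⟩
  rw [map_add, ← E.i.bd, hv, h1]
  abel

/-- If the kernel is acyclic then cycles can be lifted. -/
theorem lift_cyc (hA : A.Acy) {n : ℕ} {x : C.M n} (hx : C.cyc n x) :
    ∃ y : P.M n, P.cyc n y ∧ E.p.f n y = x := by
  cases n with
  | zero => exact ⟨E.s 0 x, trivial, E.ps 0 x⟩
  | succ m =>
    have hp : E.p.f m (P.bd m (E.s (m + 1) x)) = 0 := by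
      rw [E.p.bd, E.ps]
      exact hx
    have h1 := E.eq_ir hp
    obtain ⟨v, hv⟩ := hA m (E.r m (P.bd m (E.s (m + 1) x)))
      (E.i_cyc (by rw [h1]; exact P.cyc_bd m _))
    refine ⟨E.s (m + 1) x - E.i.f (m + 1) v, ?_, ?_⟩
    · change P.bd m _ = 0
      rw [map_sub, ← E.i.bd, hv, h1, sub_self]
    · rw [map_sub, E.ps, E.pi, sub_zero]

/-- If the quotient is acyclic then every cycle is homologous to a cycle of the kernel. -/
theorem exists_sub (hC : C.Acy) {n : ℕ} {x : P.M n} (hx : P.cyc n x) :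
    ∃ (a : A.M n) (u : P.M (n + 1)), A.cyc n a ∧ x = E.i.f n a + P.bd n u := by
  obtain ⟨c, hc⟩ := hC n _ (E.p.cyc hx)
  have hp : E.p.f n (x - P.bd n (E.s (n + 1) c)) = 0 := by
    rw [map_sub, E.p.bd, E.ps, hc, sub_self]
  have h1 := E.eq_ir hp
  refine ⟨E.r n (x - P.bd n (E.s (n + 1) c)), E.s (n + 1) c, E.i_cyc ?_, ?_⟩
  · rw [h1]
    exact hx.sub (P.cyc_bd n _)
  · rw [h1]
    abel

end SES

/-- The swap acts as `(-1)^N` on the homology of `T ⊗ T ⊗ Y`, for every `Y`. -/
def Sgn (N : ℕ) (T : SMod) : Prop :=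
  ∀ (Y : SMod) (n : ℕ) (x : (tens T (tens T Y)).M n), (tens T (tens T Y)).cyc n x →
    ∃ y, (tens T (tens T Y)).bd n y = (swap T T Y).f n x - (-1 : ℤ) ^ N • x

/-- The square of a map. -/
def sq {T T' : SMod} (φ : FM T T') (Y : SMod) : FM (tens T (tens T Y)) (tens T' (tens T' Y)) :=
  φ.tens (φ.tens (FM.id Y))

theorem swap_sq {T T' : SMod} (φ : FM T T') (Y : SMod) (n : ℕ) (x : (tens T (tens T Y)).M n) :
    (swap T' T' Y).f n ((sq φ Y).f n x) = (sq φ Y).f n ((swap T T Y).f n x) := by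
  have : (TensorProduct.leftComm ℤ (T'.M n) (T'.M n) (Y.M n)).toLinearMap ∘ₗ
      (TensorProduct.map (φ.f n) (TensorProduct.map (φ.f n) LinearMap.id)) =
      (TensorProduct.map (φ.f n) (TensorProduct.map (φ.f n) LinearMap.id)) ∘ₗ
      (TensorProduct.leftComm ℤ (T.M n) (T.M n) (Y.M n)).toLinearMap :=
    ext3 (fun a b c => by simp)
  exact LinearMap.congr_fun this x

theorem Sgn.of_retract {N : ℕ} {T T' : SMod} (φ : FM T T') (ψ : FM T' T)
    (h : ∀ n x, φ.f n (ψ.f n x) = x) (hT : T.Sgn N) : T'.Sgn N := by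
  intro Y n x hx
  have h2 : (sq φ Y).f n ((sq ψ Y).f n x) = x := by
    have : (TensorProduct.map (φ.f n) (TensorProduct.map (φ.f n) LinearMap.id)) ∘ₗ
        (TensorProduct.map (ψ.f n) (TensorProduct.map (ψ.f n)
          (LinearMap.id : Y.M n →ₗ[ℤ] Y.M n))) = LinearMap.id :=
      ext3 (fun a b c => by simp [h])
    exact LinearMap.congr_fun this x
  obtain ⟨y, hy⟩ := hT Y n _ ((sq ψ Y).cyc hx)
  refine ⟨(sq φ Y).f (n + 1) y, ?_⟩
  rw [← (sq φ Y).bd, hy, map_sub, map_zsmul, ← swap_sq, h2]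

theorem leftComm_eq_id {R : Type*} [CommSemiring R] {M N : Type*} [AddCommMonoid M]
    [AddCommMonoid N] [Module R M] [Module R N] (t : M) (ht : ∀ x : M, ∃ c : R, x = c • t) :
    (TensorProduct.leftComm R M M N).toLinearMap = LinearMap.id :=
  ext3 (fun a b c => by
    obtain ⟨k, rfl⟩ := ht a
    obtain ⟨l, rfl⟩ := ht b
    have e : ∀ p q : R, (p • t) ⊗ₜ[R] ((q • t) ⊗ₜ[R] c) = (p * q) • (t ⊗ₜ[R] (t ⊗ₜ[R] c)) := by
      intro p q
      rw [← TensorProduct.smul_tmul', ← TensorProduct.smul_tmul', TensorProduct.tmul_smul,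
        smul_smul]
    simp only [LinearEquiv.coe_coe, TensorProduct.leftComm_tmul, LinearMap.id_apply]
    rw [e, e, mul_comm])

theorem Sgn.zero {T : SMod} (h : ∀ n, ∃ t : T.M n, ∀ x : T.M n, ∃ c : ℤ, x = c • t) :
    T.Sgn 0 := by
  intro Y n x _
  refine ⟨0, ?_⟩
  obtain ⟨t, ht⟩ := h n
  have h2 : (swap T T Y).f n x = x := LinearMap.congr_fun (leftComm_eq_id t ht) x
  rw [h2, map_zero, pow_zero, one_smul, sub_self]

section Steps

variable {A P C : SMod} (E : SES A P C)

theorem sq_p (Y : SMod) (n : ℕ) (x : (tens P (tens P Y)).M n) :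
    ((E.tens Y).tensL C).p.f n ((E.tens (tens P Y)).p.f n x) = (sq E.p Y).f n x := by
  have : (TensorProduct.map LinearMap.id (TensorProduct.map (E.p.f n) LinearMap.id)) ∘ₗ
      (TensorProduct.map (E.p.f n) LinearMap.id) =
      (TensorProduct.map (E.p.f n) (TensorProduct.map (E.p.f n)
        (LinearMap.id : Y.M n →ₗ[ℤ] Y.M n))) :=
    ext3 (fun a b c => by simp)
  exact LinearMap.congr_fun this x

theorem sq_i (Y : SMod) (n : ℕ) (x : (tens A (tens A Y)).M n) :
    (E.tens (tens P Y)).i.f n (((E.tens Y).tensL A).i.f n x) = (sq E.i Y).f n x := by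
  have : (TensorProduct.map (E.i.f n) LinearMap.id) ∘ₗ
      (TensorProduct.map LinearMap.id (TensorProduct.map (E.i.f n) LinearMap.id)) =
      (TensorProduct.map (E.i.f n) (TensorProduct.map (E.i.f n)
        (LinearMap.id : Y.M n →ₗ[ℤ] Y.M n))) :=
    ext3 (fun a b c => by simp)
  exact LinearMap.congr_fun this x

include E in
theorem Sgn.ofQuot (hf : ∀ n, Module.Free ℤ (A.M n)) (hA : A.Acy) {N : ℕ} (hC : C.Sgn N) :
    P.Sgn N := by
  intro Y n x hx
  obtain ⟨u, hu⟩ := hC Y n _ ((sq E.p Y).cyc hx)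
  have hv : (tens P (tens P Y)).cyc n ((swap P P Y).f n x - (-1 : ℤ) ^ N • x) :=
    ((swap P P Y).cyc hx).sub (hx.smul _)
  have h1 : (sq E.p Y).f n ((swap P P Y).f n x - (-1 : ℤ) ^ N • x) =
      (tens C (tens C Y)).bd n u := by
    rw [hu, map_sub, map_zsmul, swap_sq]
  rw [← sq_p] at h1
  obtain ⟨u', hu'⟩ := ((E.tens Y).tensL C).bd_of_bd (hA.tens' hf C Y)
    ((E.tens (tens P Y)).p.cyc hv) h1.symm
  exact (E.tens (tens P Y)).bd_of_bd (hA.tens hf _) hv hu'

include E in
theorem Sgn.toQuot (hf : ∀ n, Module.Free ℤ (A.M n)) (hA : A.Acy) {N : ℕ} (hP : P.Sgn N) :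
    C.Sgn N := by
  intro Y n x hx
  obtain ⟨x1, hx1, h1⟩ := ((E.tens Y).tensL C).lift_cyc (hA.tens' hf C Y) hx
  obtain ⟨x2, hx2, h2⟩ := (E.tens (tens P Y)).lift_cyc (hA.tens hf _) hx1
  obtain ⟨y, hy⟩ := hP Y n x2 hx2
  have h3 : (sq E.p Y).f n x2 = x := by rw [← sq_p, h2, h1]
  refine ⟨(sq E.p Y).f (n + 1) y, ?_⟩
  rw [← (sq E.p Y).bd, hy, map_sub, map_zsmul, ← swap_sq, h3]

include E in
theorem Sgn.ofSub (hf : ∀ n, Module.Free ℤ (C.M n)) (hC : C.Acy) {N : ℕ} (hA : A.Sgn N) :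
    P.Sgn N := by
  intro Y n x hx
  obtain ⟨a, u, ha, rfl⟩ := (E.tens (tens P Y)).exists_sub (hC.tens hf _) hx
  obtain ⟨a', u', ha', rfl⟩ := ((E.tens Y).tensL A).exists_sub (hC.tens' hf A Y) ha
  obtain ⟨y, hy⟩ := hA Y n a' ha'
  set w := (E.tens (tens P Y)).i.f (n + 1) u' + u with hw
  have h1 : (E.tens (tens P Y)).i.f n (((E.tens Y).tensL A).i.f n a' +
      (tens A (tens P Y)).bd n u') + (tens P (tens P Y)).bd n u =
      (sq E.i Y).f n a' + (tens P (tens P Y)).bd n w := by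
    rw [map_add, (E.tens (tens P Y)).i.bd, sq_i, hw, map_add]
    abel
  clear_value w
  rw [h1]
  refine ⟨(sq E.i Y).f (n + 1) y + ((swap P P Y).f (n + 1) w - (-1 : ℤ) ^ N • w), ?_⟩
  have e1 : (tens P (tens P Y)).bd n ((sq E.i Y).f (n + 1) y +
      ((swap P P Y).f (n + 1) w - (-1 : ℤ) ^ N • w)) =
      (swap P P Y).f n ((sq E.i Y).f n a') - (-1 : ℤ) ^ N • (sq E.i Y).f n a' +
      ((swap P P Y).f n ((tens P (tens P Y)).bd n w) -
        (-1 : ℤ) ^ N • (tens P (tens P Y)).bd n w) := by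
    rw [map_add, ← (sq E.i Y).bd, hy, map_sub, map_sub, map_zsmul, map_zsmul,
      ← (swap P P Y).bd, ← swap_sq]
  rw [e1, map_add, smul_add]
  abel

end Steps

section Susp

variable {A P C : SMod} (E : SES A P C) (Y : SMod)

theorem map_map_aux {R : Type*} [CommSemiring R] {A P Y : Type*} [AddCommMonoid A]
    [AddCommMonoid P] [AddCommMonoid Y] [Module R A] [Module R P] [Module R Y]
    (f : A →ₗ[R] P) :
    (TensorProduct.map f (LinearMap.id : P ⊗[R] Y →ₗ[R] P ⊗[R] Y)) ∘ₗ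
      (TensorProduct.map LinearMap.id (TensorProduct.map f LinearMap.id)) =
      (TensorProduct.map LinearMap.id (TensorProduct.map f (LinearMap.id : Y →ₗ[R] Y))) ∘ₗ
      (TensorProduct.map f (LinearMap.id : A ⊗[R] Y →ₗ[R] A ⊗[R] Y)) :=
  ext3 (fun a b c => by simp)

theorem i1_j2 (n : ℕ) (x : (tens A (tens A Y)).M n) :
    (E.tens (tens P Y)).i.f n (((E.tens Y).tensL A).i.f n x) =
      ((E.tens Y).tensL P).i.f n ((E.tens (tens A Y)).i.f n x) :=
  LinearMap.congr_fun (map_map_aux (Y := Y.M n) (E.i.f n)) x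

theorem swap_i1 (n : ℕ) (x : (tens A (tens P Y)).M n) :
    (swap P P Y).f n ((E.tens (tens P Y)).i.f n x) =
      ((E.tens Y).tensL P).i.f n ((swap A P Y).f n x) := by
  have : (TensorProduct.leftComm ℤ (P.M n) (P.M n) (Y.M n)).toLinearMap ∘ₗ
      (TensorProduct.map (E.i.f n) LinearMap.id) =
      (TensorProduct.map LinearMap.id (TensorProduct.map (E.i.f n) LinearMap.id)) ∘ₗ
      (TensorProduct.leftComm ℤ (A.M n) (P.M n) (Y.M n)).toLinearMap :=
    ext3 (fun a b c => by simp)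
  exact LinearMap.congr_fun this x

theorem swap_i2 (n : ℕ) (x : (tens P (tens A Y)).M n) :
    (swap P P Y).f n (((E.tens Y).tensL P).i.f n x) =
      (E.tens (tens P Y)).i.f n ((swap P A Y).f n x) := by
  have : (TensorProduct.leftComm ℤ (P.M n) (P.M n) (Y.M n)).toLinearMap ∘ₗ
      (TensorProduct.map LinearMap.id (TensorProduct.map (E.i.f n) LinearMap.id)) =
      (TensorProduct.map (E.i.f n) LinearMap.id) ∘ₗ
      (TensorProduct.leftComm ℤ (P.M n) (A.M n) (Y.M n)).toLinearMap :=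
    ext3 (fun a b c => by simp)
  exact LinearMap.congr_fun this x

theorem swap_j2 (n : ℕ) (x : (tens A (tens A Y)).M n) :
    (swap A P Y).f n (((E.tens Y).tensL A).i.f n x) =
      (E.tens (tens A Y)).i.f n ((swap A A Y).f n x) := by
  have : (TensorProduct.leftComm ℤ (A.M n) (P.M n) (Y.M n)).toLinearMap ∘ₗ
      (TensorProduct.map LinearMap.id (TensorProduct.map (E.i.f n) LinearMap.id)) =
      (TensorProduct.map (E.i.f n) LinearMap.id) ∘ₗ
      (TensorProduct.leftComm ℤ (A.M n) (A.M n) (Y.M n)).toLinearMap :=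
    ext3 (fun a b c => by simp)
  exact LinearMap.congr_fun this x

theorem swap_j1 (n : ℕ) (x : (tens A (tens A Y)).M n) :
    (swap P A Y).f n ((E.tens (tens A Y)).i.f n x) =
      ((E.tens Y).tensL A).i.f n ((swap A A Y).f n x) := by
  have : (TensorProduct.leftComm ℤ (P.M n) (A.M n) (Y.M n)).toLinearMap ∘ₗ
      (TensorProduct.map (E.i.f n) LinearMap.id) =
      (TensorProduct.map LinearMap.id (TensorProduct.map (E.i.f n) LinearMap.id)) ∘ₗ
      (TensorProduct.leftComm ℤ (A.M n) (A.M n) (Y.M n)).toLinearMap :=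
    ext3 (fun a b c => by simp)
  exact LinearMap.congr_fun this x

theorem i6_p4 (n : ℕ) (x : (tens A (tens P Y)).M n) :
    (E.tens (tens C Y)).i.f n (((E.tens Y).tensL A).p.f n x) =
      ((E.tens Y).tensL P).p.f n ((E.tens (tens P Y)).i.f n x) := by
  have : (TensorProduct.map (E.i.f n) LinearMap.id) ∘ₗ
      (TensorProduct.map LinearMap.id (TensorProduct.map (E.p.f n)
        (LinearMap.id : Y.M n →ₗ[ℤ] Y.M n))) =
      (TensorProduct.map LinearMap.id (TensorProduct.map (E.p.f n) LinearMap.id)) ∘ₗ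
      (TensorProduct.map (E.i.f n) LinearMap.id) :=
    ext3 (fun a b c => by simp)
  exact LinearMap.congr_fun this x

theorem p3_s1 (n : ℕ) (x : (tens C (tens P Y)).M n) :
    ((E.tens Y).tensL P).p.f n ((E.tens (tens P Y)).s n x) =
      (E.tens (tens C Y)).s n (((E.tens Y).tensL C).p.f n x) := by
  have : (TensorProduct.map LinearMap.id (TensorProduct.map (E.p.f n) LinearMap.id)) ∘ₗ
      (TensorProduct.map (E.s n) LinearMap.id) =
      (TensorProduct.map (E.s n) LinearMap.id) ∘ₗ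
      (TensorProduct.map LinearMap.id (TensorProduct.map (E.p.f n)
        (LinearMap.id : Y.M n →ₗ[ℤ] Y.M n))) :=
    ext3 (fun a b c => by simp)
  exact LinearMap.congr_fun this x

theorem sq_p_i2 (n : ℕ) (x : (tens P (tens A Y)).M n) :
    (sq E.p Y).f n (((E.tens Y).tensL P).i.f n x) = 0 := by
  have h := (E.tens (tens C Y)).p.f n
  have : (TensorProduct.map (E.p.f n) (TensorProduct.map (E.p.f n) LinearMap.id)) ∘ₗ
      (TensorProduct.map LinearMap.id (TensorProduct.map (E.i.f n)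
        (LinearMap.id : Y.M n →ₗ[ℤ] Y.M n))) = 0 :=
    ext3 (fun a b c => by simp [E.pi])
  exact LinearMap.congr_fun this x

theorem sq_p_i1 (n : ℕ) (x : (tens A (tens P Y)).M n) :
    (sq E.p Y).f n ((E.tens (tens P Y)).i.f n x) = 0 := by
  rw [← sq_p, SES.pi, map_zero]

theorem exists_decomp (n : ℕ) (D : (tens P (tens P Y)).M n) (hD : (sq E.p Y).f n D = 0) :
    ∃ (y : (tens A (tens P Y)).M n) (y' : (tens P (tens A Y)).M n),
      D = (E.tens (tens P Y)).i.f n y + ((E.tens Y).tensL P).i.f n y' := by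
  have h1 := (E.tens (tens P Y)).sum n D
  have h2 : ((E.tens Y).tensL P).p.f n
      ((E.tens (tens P Y)).s n ((E.tens (tens P Y)).p.f n D)) = 0 := by
    rw [p3_s1, sq_p, hD, map_zero]
  refine ⟨(E.tens (tens P Y)).r n D, ((E.tens Y).tensL P).r n
    ((E.tens (tens P Y)).s n ((E.tens (tens P Y)).p.f n D)), ?_⟩
  rw [((E.tens Y).tensL P).eq_ir h2, h1]

include E in
theorem Sgn.susp (hf : ∀ n, Module.Free ℤ (P.M n)) (hP : P.Acy) {N : ℕ} (hA : A.Sgn N) :
    C.Sgn (N + 1) := by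
  intro Y n x hx
  obtain ⟨xt, hxt⟩ : ∃ xt : (tens P (tens P Y)).M n, (sq E.p Y).f n xt = x := by
    refine ⟨(E.tens (tens P Y)).s n (((E.tens Y).tensL C).s n x), ?_⟩
    rw [← sq_p, SES.ps, SES.ps]
  -- the final step
  have fin : ∀ (t1 : (tens A (tens P Y)).M n) (t2 : (tens P (tens A Y)).M n),
      (tens P (tens P Y)).cyc n ((swap P P Y).f n xt - (-1 : ℤ) ^ (N + 1) • xt -
        (E.tens (tens P Y)).i.f n t1 - ((E.tens Y).tensL P).i.f n t2) →
      ∃ y, (tens C (tens C Y)).bd n y = (swap C C Y).f n x - (-1 : ℤ) ^ (N + 1) • x := by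
    intro t1 t2 h
    obtain ⟨s, hs⟩ := (hP.tens hf (tens P Y)) n _ h
    refine ⟨(sq E.p Y).f (n + 1) s, ?_⟩
    rw [← (sq E.p Y).bd, hs, map_sub, map_sub, map_sub, map_zsmul, sq_p_i1, sq_p_i2, ← swap_sq,
      hxt, sub_zero, sub_zero]
  cases n with
  | zero => exact fin 0 0 trivial
  | succ m =>
    have hx' : (tens C (tens C Y)).bd m x = 0 := hx
    obtain ⟨y, y', hD⟩ := exists_decomp E Y m ((tens P (tens P Y)).bd m xt)
      (by rw [(sq E.p Y).bd, hxt, hx'])
    obtain ⟨v, hv1, hv2⟩ : ∃ v : (tens A (tens A Y)).M m,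
        (tens A (tens P Y)).cyc m ((swap P A Y).f m y' - (-1 : ℤ) ^ (N + 1) • y +
          ((E.tens Y).tensL A).i.f m v) ∧
        (tens P (tens A Y)).cyc m ((swap A P Y).f m y - (-1 : ℤ) ^ (N + 1) • y' -
          (E.tens (tens A Y)).i.f m v) := by
      cases m with
      | zero => exact ⟨0, trivial, trivial⟩
      | succ k =>
        have h0 : (E.tens (tens P Y)).i.f k ((tens A (tens P Y)).bd k y) +
            ((E.tens Y).tensL P).i.f k ((tens P (tens A Y)).bd k y') = 0 := by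
          rw [(E.tens (tens P Y)).i.bd, ((E.tens Y).tensL P).i.bd, ← map_add, ← hD]
          exact bd_bd _ k xt
        have h1 : ((E.tens Y).tensL A).p.f k ((tens A (tens P Y)).bd k y) = 0 := by
          apply (E.tens (tens C Y)).i_inj
          rw [i6_p4, eq_neg_of_add_eq_zero_left h0, map_neg, SES.pi, neg_zero]
        obtain ⟨w, hw⟩ : ∃ w, ((E.tens Y).tensL A).i.f k w = (tens A (tens P Y)).bd k y :=
          ⟨_, ((E.tens Y).tensL A).eq_ir h1⟩
        have hw2 : (E.tens (tens A Y)).i.f k w = -(tens P (tens A Y)).bd k y' := by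
          rw [← sub_eq_zero]
          apply ((E.tens Y).tensL P).i_inj
          rw [map_sub, ← i1_j2, hw, map_neg, sub_neg_eq_add, h0]
        have hw2' : (tens P (tens A Y)).bd k y' = -(E.tens (tens A Y)).i.f k w := by
          rw [hw2, neg_neg]
        have hw3 : (tens A (tens A Y)).cyc k w := by
          apply ((E.tens Y).tensL A).i_cyc
          rw [hw]
          exact cyc_bd _ k y
        obtain ⟨v, hv⟩ := hA Y k w hw3
        refine ⟨v, ?_, ?_⟩
        · change (tens A (tens P Y)).bd k _ = 0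
          rw [map_add, map_sub, map_zsmul, ← (swap P A Y).bd, ← ((E.tens Y).tensL A).i.bd, hv,
            hw2', map_neg, swap_j1, map_sub, map_zsmul, hw, pow_succ]
          simp only [mul_neg, mul_one, neg_smul]
          abel
        · change (tens P (tens A Y)).bd k _ = 0
          rw [map_sub, map_sub, map_zsmul, ← (swap A P Y).bd, ← (E.tens (tens A Y)).i.bd, hv,
            ← hw, swap_j2, map_sub, map_zsmul, hw2, pow_succ]
          simp only [mul_neg, mul_one, neg_smul, smul_neg]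
          abel
    obtain ⟨t1, ht1⟩ := (hP.tens' hf A Y) m _ hv1
    obtain ⟨t2, ht2⟩ := (hP.tens hf (tens A Y)) m _ hv2
    refine fin t1 t2 ?_
    change (tens P (tens P Y)).bd m _ = 0
    rw [map_sub, map_sub, map_sub, map_zsmul, ← (swap P P Y).bd, hD,
      ← (E.tens (tens P Y)).i.bd, ← ((E.tens Y).tensL P).i.bd, ht1, ht2]
    simp only [map_add, map_sub, map_zsmul, smul_add, swap_i1, swap_i2, i1_j2]
    abel

end Susp

end SMod

end

end Pool.Agent.Lib.MP_904b2a_gt.H44
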