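import Pool.Agent.Lib.MP_904b2a_gt.H44.Bridge
import Pool.Agent.Lib.MP_904b2a_gt.H49.Mono

/-!
# MP_904b2a_gt, module ALG (T2): vanishing of the homology of `Sym^a K ⊗ Sym^b L`
-/

open scoped BigOperators TensorProduct
open Finset MvPolynomial

namespace Pool.Agent.Lib.MP_904b2a_gt

noncomputable section

section maps

variable {B : Type}

/-- The inclusion of a symmetric power. -/
def sIn (B : Type) (p : ℕ) : SymP B p →+ MvPolynomial B ℤ :=
  (homogeneousSubmodule B ℤ p).subtype.toAddMonoidHom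

theorem sIn_apply (p : ℕ) (x : SymP B p) : sIn B p x = x.1 := rfl

/-- The projection to a symmetric power. -/
def sPr (B : Type) (p : ℕ) : MvPolynomial B ℤ →+ SymP B p where
  toFun f := ⟨homogeneousComponent p f, homogeneousComponent_isHomogeneous p f⟩
  map_zero' := Subtype.ext (map_zero _)
  map_add' f g := Subtype.ext (map_add _ f g)

theorem sPr_val (p : ℕ) (f : MvPolynomial B ℤ) : (sPr B p f).1 = homogeneousComponent p f := rfl

/-- The idempotent of a symmetric power. -/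
def sE (B : Type) (p : ℕ) : MvPolynomial B ℤ →+ MvPolynomial B ℤ :=
  (homogeneousComponent p).toAddMonoidHom

theorem sE_apply (p : ℕ) (f : MvPolynomial B ℤ) : sE B p f = homogeneousComponent p f := rfl

theorem sE_self (p : ℕ) {f : MvPolynomial B ℤ} (hf : f.IsHomogeneous p) : sE B p f = f := by
  rw [sE_apply, homogeneousComponent_of_mem hf, if_pos rfl]

theorem sPr_sE_sIn (p : ℕ) (x : SymP B p) : sPr B p (sE B p (sIn B p x)) = x := by
  refine Subtype.ext ?_
  rw [sIn_apply, sE_self p x.2, sPr_val]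
  exact sE_self p x.2

end maps

namespace PSS

theorem sIn_isMap (K : PSS) (p : ℕ) :
    SM.IsMap (X := K.symP p) (Y := K.sym) (fun n => sIn (K.B n) p) := fun _ _ _ _ => rfl

theorem sPr_isMap (K : PSS) (p : ℕ) :
    SM.IsMap (X := K.sym) (Y := K.symP p) (fun n => sPr (K.B n) p) :=
  fun n i x _ => Subtype.ext (homogeneousComponent_symMap (K.dZ n i) p x)

end PSS

namespace SM

variable {X X' Y Y' : SM}

theorem IsMap.tensor {f : ∀ n, X.T n →+ X'.T n} {g : ∀ n, Y.T n →+ Y'.T n} (hf : IsMap f)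
    (hg : IsMap g) :
    IsMap (X := X.tensor Y) (Y := X'.tensor Y') (fun n => tmap (f n) (g n)) := by
  intro n i z hi
  refine DFunLike.congr_fun (f := (tmap (f n) (g n)).comp (tmap (X.d n i) (Y.d n i)))
    (g := (tmap (X'.d n i) (Y'.d n i)).comp (tmap (f (n + 1)) (g (n + 1))))
    (tadd_ext (fun x y => ?_)) z
  simp only [AddMonoidHom.comp_apply, tmap_tmul]
  rw [hf n i x hi, hg n i y hi]

theorem isMap_id : IsMap (X := X) (Y := X) (fun n => AddMonoidHom.id (X.T n)) :=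
  fun _ _ _ _ => rfl

/-- The commutativity of the tensor product. -/
def tcomm (X Y : SM) (n : ℕ) : (X.tensor Y).T n →+ (Y.tensor X).T n :=
  (TensorProduct.comm ℤ (X.T n) (Y.T n)).toLinearMap.toAddMonoidHom

theorem tcomm_tmul (X Y : SM) (n : ℕ) (x : X.T n) (y : Y.T n) :
    X.tcomm Y n (x ⊗ₜ[ℤ] y) = y ⊗ₜ[ℤ] x := rfl

theorem tcomm_isMap (X Y : SM) : IsMap (X := X.tensor Y) (Y := Y.tensor X) (X.tcomm Y) := by
  intro n i z hi
  refine DFunLike.congr_fun (f := (X.tcomm Y n).comp (tmap (X.d n i) (Y.d n i)))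
    (g := (tmap (Y.d n i) (X.d n i)).comp (X.tcomm Y (n + 1))) (tadd_ext (fun x y => ?_)) z
  simp only [AddMonoidHom.comp_apply, tmap_tmul]
  rfl

theorem tcomm_tcomm (X Y : SM) (n : ℕ) (z : (X.tensor Y).T n) :
    Y.tcomm X n (X.tcomm Y n z) = z := by
  refine DFunLike.congr_fun (f := (Y.tcomm X n).comp (X.tcomm Y n)) (g := AddMonoidHom.id _)
    (tadd_ext (fun x y => ?_)) z
  rfl

theorem HZ_tensor_comm (X Y : SM) (k : ℕ) (h : (X.tensor Y).HZ k) : (Y.tensor X).HZ k := by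
  intro z hz
  obtain ⟨w, hw⟩ := h _ ((tcomm_isMap Y X).cyc k z hz)
  refine ⟨X.tcomm Y (k + 1) w, ?_⟩
  rw [← (tcomm_isMap X Y).bd, hw, tcomm_tcomm]

end SM

namespace PSS

theorem HZ_symP_tensor (K : PSS) (a : ℕ) (Y : SM) (k : ℕ)
    (h : ∀ j, j ≤ k → (K.symP a).HZ j) : ((K.symP a).tensor Y).HZ k := by
  intro z hz
  have hin := (K.sIn_isMap a).tensor (SM.isMap_id (X := Y))
  have hpr := (K.sPr_isMap a).tensor (SM.isMap_id (X := Y))
  obtain ⟨y, hy⟩ := SM.idem_tensor K.sym (fun n => inferInstanceAs (Module.Free ℤ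
      (MvPolynomial (K.B n) ℤ))) (fun n => sE (K.B n) a)
    (fun n x => sE_self a (homogeneousComponent_isHomogeneous a x))
    (fun n i x _ => homogeneousComponent_symMap (K.dZ n i) a x)
    (fun n i x _ => homogeneousComponent_symMap (K.sZ n i) a x) (k + 1)
    (fun j hj x hx hc => by
      obtain ⟨w, hw⟩ := h j (Nat.lt_succ_iff.mp hj) _ ((K.sPr_isMap a).cyc j x hc)
      refine ⟨sIn (K.B (j + 1)) a w, ?_⟩
      have h1 := (K.sIn_isMap a).bd j w
      rw [hw] at h1
      exact h1.symm.trans hx) Y k (Nat.lt_succ_self k) _ (hin.cyc k z hz)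
  refine ⟨tmap (sPr (K.B (k + 1)) a) (AddMonoidHom.id _) y, ?_⟩
  have h2 := hpr.bd k y
  rw [hy] at h2
  refine h2.symm.trans ?_
  refine DFunLike.congr_fun (f := ((tmap (sPr (K.B k) a) (AddMonoidHom.id (Y.T k))).comp
    (tmap (sE (K.B k) a) (AddMonoidHom.id (Y.T k)))).comp
      (tmap (sIn (K.B k) a) (AddMonoidHom.id (Y.T k)))) (g := AddMonoidHom.id _)
    (tadd_ext (fun x y => ?_)) z
  simp only [AddMonoidHom.comp_apply, tmap_tmul, AddMonoidHom.id_apply]
  rw [sPr_sE_sIn]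

/-- (T2). -/
theorem HZ_symP_symP (K L : PSS) (a b k : ℕ)
    (h : (∀ j, j ≤ k → (K.symP a).HZ j) ∨ (∀ j, j ≤ k → (L.symP b).HZ j)) :
    ((K.symP a).tensor (L.symP b)).HZ k := by
  rcases h with h | h
  · exact K.HZ_symP_tensor a _ k h
  · exact SM.HZ_tensor_comm _ _ k (L.HZ_symP_tensor b _ k h)

end PSS

end

end Pool.Agent.Lib.MP_904b2a_gt
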